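import Pool.Agent.Q230.RS.St2

/-!
# Rotation systems of cubic graphs: components
-/

set_option autoImplicit false

namespace Pool.Agent.Q230.RS

variable {V : Type}

/-- the component of a vertex -/
def R (G : Cub V) (u v : V) : Prop := Relation.ReflTransGen (Adj G) u v

theorem R.symm {G : Cub V} {u v : V} (h : R G u v) : R G v u := by
  induction h with
  | refl => exact Relation.ReflTransGen.refl
  | tail _ h2 ih => exact Relation.ReflTransGen.head (Adj.symm h2) ih

/-- the graph of the component of `v` -/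
def sub (G : Cub V) (v : V) : Cub {u : V // R G v u} where
  nb u i := ⟨G.nb u.1 i, Relation.ReflTransGen.tail u.2 ⟨i, rfl⟩⟩
  inj := fun u i j h => G.inj u.1 (congrArg Subtype.val h)
  irr := fun u i h => G.irr u.1 i (congrArg Subtype.val h)
  sym := fun u i => by
    obtain ⟨j, hj⟩ := G.sym u.1 i
    exact ⟨j, Subtype.ext hj⟩

theorem conn_sub (G : Cub V) (v : V) : Conn (sub G v) := by
  intro S hS hcl
  obtain ⟨s, hs⟩ := hS
  have key : ∀ w, R G s.1 w → ∀ h : R G v w, (⟨w, h⟩ : {u : V // R G v u}) ∈ S := by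
    intro w hw
    induction hw with
    | refl => intro h; exact hs
    | tail h1 h2 ih =>
      intro h
      obtain ⟨i, hi⟩ := h2
      have := hcl _ (ih (s.2.trans h1)) i
      have e : (⟨_, h⟩ : {u : V // R G v u}) = (sub G v).nb ⟨_, s.2.trans h1⟩ i :=
        Subtype.ext hi.symm
      rw [e]; exact this
  ext w
  simp only [Set.mem_univ, iff_true]
  exact key w.1 ((R.symm s.2).trans w.2) w.2

/-- each component has a placement -/
theorem pl_comp (hI : S_INS) (hC : S_CYC) (hX : S_CYX) [Finite V] (G : Cub V)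
    (hK : ∀ v, IsK4 G v → Pl G {u | u = v ∨ ∃ k, G.nb v k = u}) (v : V) :
    Pl G {u | R G v u} := by
  classical
  haveI : Nonempty {u : V // R G v u} := ⟨⟨v, Relation.ReflTransGen.refl⟩⟩
  haveI : Fintype {u : V // R G v u} := Fintype.ofFinite _
  by_cases hN : NoK4 (sub G v)
  · obtain ⟨x, y, hB, hok⟩ := good_univ hI hC hX (sub G v) hN (conn_sub G v)
    let X : V → ℝ := fun u => if h : R G v u then x ⟨u, h⟩ else 0
    let Y : V → ℝ := fun u => if h : R G v u then y ⟨u, h⟩ else 0
    have hX' : ∀ u (h : R G v u), X u = x ⟨u, h⟩ := fun u h => by simp [X, h]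
    have hY' : ∀ u (h : R G v u), Y u = y ⟨u, h⟩ := fun u h => by simp [Y, h]
    have hcr : ∀ a b c (ha : R G v a) (hb : R G v b) (hc : R G v c),
        cr X Y a b c = cr x y ⟨a, ha⟩ ⟨b, hb⟩ ⟨c, hc⟩ := by
      intro a b c ha hb hc
      unfold cr
      rw [hX' a ha, hX' b hb, hX' c hc, hY' a ha, hY' b hb, hY' c hc]
    refine ⟨X, Y, ?_, ?_, ?_⟩
    · intro a ha b hb hab
      rw [hX' a ha, hX' b hb]
      exact hB.1 _ (Finset.mem_univ _) _ (Finset.mem_univ _) (fun e => hab (congrArg Subtype.val e))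
    · intro a ha b hb c hc h1 h2 h3
      rw [hcr a b c ha hb hc]
      exact hB.2 _ (Finset.mem_univ _) _ (Finset.mem_univ _) _ (Finset.mem_univ _)
        (fun e => h1 (congrArg Subtype.val e)) (fun e => h2 (congrArg Subtype.val e))
        (fun e => h3 (congrArg Subtype.val e))
    · intro u hu
      rcases hok ⟨u, hu⟩ (Finset.mem_univ _) with ⟨_, hr⟩ | ⟨i, h0, _⟩
      · have hn : ∀ i, R G v (G.nb u i) := fun i => Relation.ReflTransGen.tail hu ⟨i, rfl⟩
        unfold Rot at hr ⊢
        rw [hcr _ _ _ hu (hn 0) (hn 1), hcr _ _ _ hu (hn 1) (hn 2), hcr _ _ _ hu (hn 2) (hn 0)]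
        exact hr
      · exact absurd (Finset.mem_univ _) h0
  · unfold NoK4 at hN
    push Not at hN
    obtain ⟨w, hw⟩ := hN
    have hw' : IsK4 G w.1 := by
      intro i j
      by_cases h : G.nb (G.nb w.1 i) j = w.1
      · exact Or.inl h
      · right
        obtain ⟨k, hk⟩ := hw i j (fun e => h (congrArg Subtype.val e))
        exact ⟨k, congrArg Subtype.val hk⟩
    obtain ⟨x, y, h1, h2, h3⟩ := hK w.1 hw'
    have hsub : ∀ u, R G v u → u ∈ {u | u = w.1 ∨ ∃ k, G.nb w.1 k = u} := by
      intro u hu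
      have hwu : R G w.1 u := (R.symm w.2).trans hu
      clear hu
      induction hwu with
      | refl => exact Or.inl rfl
      | tail _ h ih =>
        obtain ⟨j, rfl⟩ := h
        rcases ih with e | ⟨i, hi⟩
        · rw [e]; exact Or.inr ⟨j, rfl⟩
        · rw [← hi]
          rcases hw' i j with e | ⟨k, hk⟩
          · exact Or.inl e
          · exact Or.inr ⟨k, hk.symm⟩
    exact ⟨x, y, fun a ha b hb => h1 a (hsub a ha) b (hsub b hb),
      fun a ha b hb c hc => h2 a (hsub a ha) b (hsub b hb) c (hsub c hc),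
      fun u hu => h3 u (hsub u hu)⟩

/-- a point of an open segment is collinear with the ends -/
theorem cr_seg {x y : V → ℝ} {u w z : V} {t : ℝ} (h1 : x z = (1 - t) * x u + t * x w)
    (h2 : y z = (1 - t) * y u + t * y w) : cr x y u w z = 0 := by
  unfold cr; rw [h1, h2]; ring

/-- **Placing the components side by side.** -/
theorem glue [Finite V] (G : Cub V) (hP : ∀ v, Pl G {u | R G v u}) :
    ∃ x y : V → ℝ, Draw G x y := by
  classical
  haveI : Fintype V := Fintype.ofFinite V
  -- representatives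
  let st : Setoid V := ⟨R G, ⟨fun _ => Relation.ReflTransGen.refl, fun h => R.symm h,
    fun h h' => h.trans h'⟩⟩
  let rep : V → V := fun u => (Quotient.mk st u).out
  have hrep : ∀ u, R G (rep u) u := fun u => Quotient.exact (Quotient.out_eq (Quotient.mk st u))
  have hrepe : ∀ u v, R G u v → rep u = rep v := by
    intro u v h
    have : Quotient.mk st u = Quotient.mk st v := Quotient.sound h
    show (Quotient.mk st u).out = (Quotient.mk st v).out
    rw [this]
  choose X Y hX hXY hR using hP
  -- a bound for all abscissas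
  obtain ⟨B, hB⟩ : ∃ B : ℝ, ∀ r u, |X r u| ≤ B := by
    obtain ⟨B, hB⟩ := exists_right (fun p : V × V => |X p.1 p.2|) Finset.univ
    exact ⟨B, fun r u => (hB (r, u) (Finset.mem_univ _)).le⟩
  obtain ⟨num⟩ : Nonempty (V ≃ Fin (Fintype.card V)) := ⟨Fintype.equivFin V⟩
  let D : ℝ := 2 * B + 1
  let x : V → ℝ := fun u => X (rep u) u + D * ((num (rep u)).val : ℝ)
  let y : V → ℝ := fun u => Y (rep u) u
  have hB0 : ∀ _ : V, 0 ≤ B := fun u => (abs_nonneg _).trans (hB u u)
  -- different components are far apart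
  have hfar : ∀ a b z : V, rep a = rep b → rep a ≠ rep z → ∀ t : ℝ, 0 ≤ t → t ≤ 1 →
      x z ≠ (1 - t) * x a + t * x b := by
    intro a b z hab haz t ht0 ht1 h
    have hBz := hB0 a
    have e1 : (1 - t) * x a + t * x b =
        ((1 - t) * X (rep a) a + t * X (rep a) b) + D * ((num (rep a)).val : ℝ) := by
      show (1 - t) * (X (rep a) a + D * _) + t * (X (rep b) b + D * _) = _
      rw [← hab]; ring
    rw [e1] at h
    have h1 := abs_le.1 (hB (rep a) a)
    have h2 := abs_le.1 (hB (rep a) b)
    have h3 := abs_le.1 (hB (rep z) z)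
    have b1 : (1 - t) * X (rep a) a + t * X (rep a) b ≤ B := by nlinarith
    have b2 : -B ≤ (1 - t) * X (rep a) a + t * X (rep a) b := by nlinarith
    have hxz : x z = X (rep z) z + D * ((num (rep z)).val : ℝ) := rfl
    rw [hxz] at h
    have hne : (num (rep a)).val ≠ (num (rep z)).val := by
      intro e
      exact haz (num.injective (Fin.ext e))
    rcases lt_or_gt_of_ne hne with hlt | hlt
    · have : ((num (rep a)).val : ℝ) + 1 ≤ ((num (rep z)).val : ℝ) := by exact_mod_cast hlt
      have hD : D * (((num (rep a)).val : ℝ) + 1) ≤ D * ((num (rep z)).val : ℝ) :=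
        mul_le_mul_of_nonneg_left this (by show (0 : ℝ) ≤ 2 * B + 1; linarith)
      have : D = 2 * B + 1 := rfl
      nlinarith
    · have : ((num (rep z)).val : ℝ) + 1 ≤ ((num (rep a)).val : ℝ) := by exact_mod_cast hlt
      have hD : D * (((num (rep z)).val : ℝ) + 1) ≤ D * ((num (rep a)).val : ℝ) :=
        mul_le_mul_of_nonneg_left this (by show (0 : ℝ) ≤ 2 * B + 1; linarith)
      have : D = 2 * B + 1 := rfl
      nlinarith
  -- orientation inside a component
  have hcr : ∀ a b c : V, rep a = rep b → rep a = rep c →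
      cr x y a b c = cr (X (rep a)) (Y (rep a)) a b c := by
    intro a b c hab hac
    show ((X (rep b) b + D * _) - (X (rep a) a + D * _)) * (Y (rep c) c - Y (rep a) a) -
      (Y (rep b) b - Y (rep a) a) * ((X (rep c) c + D * _) - (X (rep a) a + D * _)) = _
    rw [← hab, ← hac]
    unfold cr
    ring
  have hnb : ∀ u i, rep u = rep (G.nb u i) :=
    fun u i => hrepe _ _ (Relation.ReflTransGen.single ⟨i, rfl⟩)
  have hinj : ∀ u v, u ≠ v → x u ≠ x v := by
    intro u v huv h
    by_cases hr : rep u = rep v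
    · refine hX (rep u) u (hrep u) v (by rw [hr]; exact hrep v) huv ?_
      have h' : X (rep u) u + D * _ = X (rep v) v + D * _ := h
      rw [← hr] at h'
      linarith
    · have := hfar u u v rfl hr 0 le_rfl zero_le_one
      apply this
      rw [← h]; ring
  refine ⟨x, y, fun u v huv h => absurd h (hinj u v huv), ?_, ?_⟩
  · intro u i z hzu hzw t ht0 ht1 h1 h2
    by_cases hr : rep u = rep z
    · have h0 := cr_seg h1 h2
      rw [hcr u (G.nb u i) z (hnb u i) hr] at h0
      exact hXY (rep u) u (hrep u) (G.nb u i) (by rw [hnb u i]; exact hrep _) z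
        (by rw [hr]; exact hrep z) (G.irr u i).symm hzw.symm hzu.symm h0
    · exact hfar u (G.nb u i) z (hnb u i) hr t ht0.le ht1.le h1
  · intro u
    have h := hR (rep u) u (hrep u)
    unfold Rot at h ⊢
    rw [hcr _ _ _ (hnb u 0) (hnb u 1), hcr _ _ _ (hnb u 1) (hnb u 2), hcr _ _ _ (hnb u 2) (hnb u 0)]
    exact h

end Pool.Agent.Q230.RS
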