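import Mathlib

/-!
# Rotation systems of cubic graphs: the model

A cubic graph with a rotation system is given by the three neighbours `nb v 0, nb v 1, nb v 2` of
each vertex `v`, in the prescribed counterclockwise order.
-/

set_option autoImplicit false

namespace Pool.Agent.Q230.RS

variable {V : Type*}

/-- Twice the signed area of the triangle with the corners `a, b, c`. -/
def cr (x y : V → ℝ) (a b c : V) : ℝ :=
  (x b - x a) * (y c - y a) - (y b - y a) * (x c - x a)

/-- At least two of three real numbers are positive. -/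
def Maj (a b c : ℝ) : Prop := (0 < a ∧ 0 < b) ∨ (0 < b ∧ 0 < c) ∨ (0 < c ∧ 0 < a)

/-- A simple cubic graph with a rotation system. -/
structure Cub (V : Type*) where
  /-- the neighbours of a vertex, in the prescribed cyclic order -/
  nb : V → Fin 3 → V
  inj : ∀ v, Function.Injective (nb v)
  irr : ∀ v i, nb v i ≠ v
  sym : ∀ v i, ∃ j, nb (nb v i) j = v

/-- The vertex `u` has the prescribed rotation. -/
def Rot (G : Cub V) (x y : V → ℝ) (u : V) : Prop :=
  Maj (cr x y u (G.nb u 0) (G.nb u 1)) (cr x y u (G.nb u 1) (G.nb u 2))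
    (cr x y u (G.nb u 2) (G.nb u 0))

/-- The placed vertex `u` is safe: all neighbours are placed and the rotation is as prescribed, or
two neighbours are placed, on the same side of `u`, in the right order. -/
def ok (G : Cub V) (x y : V → ℝ) (S : Finset V) (u : V) : Prop :=
  ((∀ i, G.nb u i ∈ S) ∧ Rot G x y u) ∨
  ∃ i, G.nb u i ∉ S ∧ G.nb u (i + 1) ∈ S ∧ G.nb u (i + 2) ∈ S ∧
    0 < (x (G.nb u (i + 1)) - x u) * (x (G.nb u (i + 2)) - x u) ∧
    0 < cr x y u (G.nb u (i + 1)) (G.nb u (i + 2))

/-- General position. -/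
def Bs (x y : V → ℝ) (S : Finset V) : Prop :=
  (∀ a ∈ S, ∀ b ∈ S, a ≠ b → x a ≠ x b) ∧
  ∀ a ∈ S, ∀ b ∈ S, ∀ c ∈ S, a ≠ b → b ≠ c → a ≠ c → cr x y a b c ≠ 0

/-- The placement `x', y'` extends `x, y` from `S` to `insert w S`; the new point is far up
(`s = 1`) or far down (`s = -1`). -/
structure Ext [DecidableEq V] (x y : V → ℝ) (S : Finset V) (w : V) (ξ s : ℝ) (x' y' : V → ℝ) :
    Prop where
  nS : w ∉ S
  ex : ∀ a ∈ S, x' a = x a
  ey : ∀ a ∈ S, y' a = y a
  xw : x' w = ξ
  base : Bs x' y' (insert w S)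
  far : ∀ a ∈ S, ∀ b ∈ S, x a < x b → 0 < s * cr x' y' a b w

/-- `sg j k = 1` if `k = j + 1`, and `-1` otherwise. -/
def sg (j k : Fin 3) : ℝ := if k = j + 1 then 1 else -1

theorem cr_rot (x y : V → ℝ) (a b c : V) : cr x y a b c = cr x y b c a := by
  unfold cr; ring

theorem cr_swap (x y : V → ℝ) (a b c : V) : cr x y a b c = - cr x y a c b := by
  unfold cr; ring

theorem cr_congr {x y x' y' : V → ℝ} {a b c : V} (ha : x' a = x a) (hb : x' b = x b)
    (hc : x' c = x c) (ha' : y' a = y a) (hb' : y' b = y b) (hc' : y' c = y c) :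
    cr x' y' a b c = cr x y a b c := by
  unfold cr; rw [ha, hb, hc, ha', hb', hc']

theorem Maj_rot {a b c : ℝ} : Maj a b c ↔ Maj b c a := by
  unfold Maj; tauto

theorem Rot_iff (G : Cub V) (x y : V → ℝ) (u : V) (i : Fin 3) :
    Rot G x y u ↔ Maj (cr x y u (G.nb u i) (G.nb u (i + 1)))
      (cr x y u (G.nb u (i + 1)) (G.nb u (i + 2))) (cr x y u (G.nb u (i + 2)) (G.nb u i)) := by
  unfold Rot
  fin_cases i
  · exact Iff.rfl
  · exact Maj_rot
  · exact Maj_rot.trans Maj_rot

/-- Adding a point far up or far down. -/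
theorem exists_ext [DecidableEq V] (x y : V → ℝ) (S : Finset V) (hB : Bs x y S) (w : V)
    (hw : w ∉ S) (ξ : ℝ) (hξ : ∀ a ∈ S, x a ≠ ξ) (s : ℝ) (hs : s = 1 ∨ s = -1) :
    ∃ x' y', Ext x y S w ξ s x' y' := by
  classical
  -- height bound
  obtain ⟨M, hM⟩ : ∃ M : ℝ, ∀ a ∈ S, ∀ b ∈ S, x a < x b →
      |(y b - y a) * (ξ - x a) + (x b - x a) * y a| < M * (x b - x a) := by
    have : ∀ T : Finset (V × V), ∃ M : ℝ, ∀ p ∈ T, x p.1 < x p.2 →
        |(y p.2 - y p.1) * (ξ - x p.1) + (x p.2 - x p.1) * y p.1| < M * (x p.2 - x p.1) := by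
      intro T
      induction T using Finset.induction_on with
      | empty => exact ⟨0, by simp⟩
      | insert p T hp ih =>
        obtain ⟨M, hM⟩ := ih
        refine ⟨max M (|(y p.2 - y p.1) * (ξ - x p.1) + (x p.2 - x p.1) * y p.1| /
          (x p.2 - x p.1) + 1), ?_⟩
        intro q hq hlt
        have hpos : 0 < x q.2 - x q.1 := by linarith
        rcases Finset.mem_insert.1 hq with rfl | hq
        · refine lt_of_lt_of_le ?_ (mul_le_mul_of_nonneg_right (le_max_right _ _) hpos.le)
          rw [add_mul, div_mul_cancel₀ _ hpos.ne']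
          linarith
        · exact lt_of_lt_of_le (hM q hq hlt)
            (mul_le_mul_of_nonneg_right (le_max_left _ _) hpos.le)
    obtain ⟨M, hM⟩ := this (S ×ˢ S)
    exact ⟨M, fun a ha b hb h => hM (a, b) (Finset.mk_mem_product ha hb) h⟩
  have hs2 : s * s = 1 := by rcases hs with rfl | rfl <;> norm_num
  refine ⟨Function.update x w ξ, Function.update y w (s * M), ?_⟩
  have hne : ∀ a ∈ S, a ≠ w := fun a ha h => hw (h ▸ ha)
  have hx : ∀ a ∈ S, Function.update x w ξ a = x a := fun a ha => by
    rw [Function.update_of_ne (hne a ha)]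
  have hy : ∀ a ∈ S, Function.update y w (s * M) a = y a := fun a ha => by
    rw [Function.update_of_ne (hne a ha)]
  have hxw : Function.update x w ξ w = ξ := by simp
  have hyw : Function.update y w (s * M) w = s * M := by simp
  have hfar : ∀ a ∈ S, ∀ b ∈ S, x a < x b →
      0 < s * cr (Function.update x w ξ) (Function.update y w (s * M)) a b w := by
    intro a ha b hb hlt
    have h1 := hM a ha b hb hlt
    unfold cr
    rw [hx a ha, hx b hb, hy a ha, hy b hb, hxw, hyw]
    have h2 : s * ((x b - x a) * (s * M - y a) - (y b - y a) * (ξ - x a)) =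
        (s * s) * (M * (x b - x a)) - s * ((y b - y a) * (ξ - x a) + (x b - x a) * y a) := by
      ring
    rw [h2, hs2, one_mul]
    have h3 : s * ((y b - y a) * (ξ - x a) + (x b - x a) * y a) ≤
        |(y b - y a) * (ξ - x a) + (x b - x a) * y a| := by
      rcases hs with rfl | rfl
      · rw [one_mul]; exact le_abs_self _
      · rw [neg_one_mul]; exact neg_le_abs _
    linarith
  refine ⟨hw, hx, hy, hxw, ⟨?_, ?_⟩, hfar⟩
  · intro a ha b hb hab
    rcases Finset.mem_insert.1 ha with ha1 | ha1 <;> rcases Finset.mem_insert.1 hb with hb1 | hb1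
    · exact absurd (ha1.trans hb1.symm) hab
    · rw [ha1, hxw, hx b hb1]; exact (hξ b hb1).symm
    · rw [hb1, hxw, hx a ha1]; exact hξ a ha1
    · rw [hx a ha1, hx b hb1]; exact hB.1 a ha1 b hb1 hab
  · have key : ∀ a ∈ S, ∀ b ∈ S, a ≠ b →
        cr (Function.update x w ξ) (Function.update y w (s * M)) a b w ≠ 0 := by
      intro a ha b hb hab h0
      rcases lt_or_gt_of_ne (hB.1 a ha b hb hab) with h | h
      · have := hfar a ha b hb h
        rw [h0, mul_zero] at this
        exact lt_irrefl _ this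
      · have := hfar b hb a ha h
        have e : cr (Function.update x w ξ) (Function.update y w (s * M)) b a w =
            - cr (Function.update x w ξ) (Function.update y w (s * M)) a b w := by
          unfold cr; ring
        rw [e, h0, neg_zero, mul_zero] at this
        exact lt_irrefl _ this
    intro a ha b hb c hc hab hbc hac
    rcases Finset.mem_insert.1 ha with ha1 | ha1 <;> rcases Finset.mem_insert.1 hb with hb1 | hb1 <;>
      rcases Finset.mem_insert.1 hc with hc1 | hc1
    · exact absurd (ha1.trans hb1.symm) hab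
    · exact absurd (ha1.trans hb1.symm) hab
    · exact absurd (ha1.trans hc1.symm) hac
    · rw [ha1, cr_rot]; exact key b hb1 c hc1 hbc
    · exact absurd (hb1.trans hc1.symm) hbc
    · rw [hb1, cr_rot, cr_rot]; exact key c hc1 a ha1 hac.symm
    · rw [hc1]; exact key a ha1 b hb1 hab
    · rw [cr_congr (hx a ha1) (hx b hb1) (hx c hc1) (hy a ha1) (hy b hb1) (hy c hc1)]
      exact hB.2 a ha1 b hb1 c hc1 hab hbc hac

/-! ### Elementary facts about the indices -/

theorem sg_sq (j k : Fin 3) : sg j k * sg j k = 1 := by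
  unfold sg; split <;> norm_num

theorem sg_cases (j k : Fin 3) : sg j k = 1 ∨ sg j k = -1 := by
  unfold sg; split
  · exact Or.inl rfl
  · exact Or.inr rfl

theorem fin3_cases {j k : Fin 3} (h : j ≠ k) : k = j + 1 ∨ k = j + 2 := by
  revert j k; decide

theorem f21 (j : Fin 3) : j + 2 + 1 = j := by revert j; decide
theorem f22 (j : Fin 3) : j + 2 + 2 = j + 1 := by revert j; decide
theorem f11 (j : Fin 3) : j + 1 + 1 = j + 2 := by revert j; decide
theorem f12 (j : Fin 3) : j + 1 + 2 = j := by revert j; decide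
theorem fn1 (j : Fin 3) : j + 1 ≠ j := by revert j; decide
theorem fn2 (j : Fin 3) : j + 2 ≠ j := by revert j; decide
theorem fn12 (j : Fin 3) : j + 1 ≠ j + 2 := by revert j; decide

theorem third_cases {j k i : Fin 3} (h : j ≠ k) (h1 : i ≠ j) (h2 : i ≠ k) :
    i + 1 = j ∧ i + 2 = k ∧ k = j + 1 ∨ i + 1 = k ∧ i + 2 = j ∧ k = j + 2 := by
  revert j k i; decide

theorem exists_third (j k : Fin 3) : ∃ i : Fin 3, i ≠ j ∧ i ≠ k := by revert j k; decide

theorem third_unique {j k i i' : Fin 3} (h : j ≠ k) (h1 : i ≠ j) (h2 : i ≠ k) (h3 : i' ≠ j)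
    (h4 : i' ≠ k) : i' = i := by revert j k i i'; decide

theorem sg_one (j : Fin 3) : sg j (j + 1) = 1 := by simp [sg]

theorem sg_two (j : Fin 3) : sg j (j + 2) = -1 := by
  simp [sg, (fn12 j).symm]

theorem sg_anti {j k : Fin 3} (h : j ≠ k) : sg k j = - sg j k := by
  rcases fin3_cases h with rfl | rfl
  · have := sg_two (j + 1)
    rw [f12] at this
    rw [sg_one, this]
  · have := sg_one (j + 2)
    rw [f21] at this
    rw [sg_two, this]; norm_num

namespace Ext

variable [DecidableEq V] {x y x' y' : V → ℝ} {S : Finset V} {w : V} {ξ s : ℝ}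

theorem crS (h : Ext x y S w ξ s x' y') {a b c : V} (ha : a ∈ S) (hb : b ∈ S) (hc : c ∈ S) :
    cr x' y' a b c = cr x y a b c :=
  cr_congr (h.ex a ha) (h.ex b hb) (h.ex c hc) (h.ey a ha) (h.ey b hb) (h.ey c hc)

theorem ne (h : Ext x y S w ξ s x' y') {a : V} (ha : a ∈ S) : a ≠ w := fun e => h.nS (e ▸ ha)

/-- sign of the orientation of the triples with the new point -/
theorem sign (h : Ext x y S w ξ s x' y') {a b : V} (ha : a ∈ S) (hb : b ∈ S)
    (hs : 0 < s * (x b - x a)) (hs' : s = 1 ∨ s = -1) : 0 < cr x' y' a b w := by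
  rcases hs' with rfl | rfl
  · have := h.far a ha b hb (by linarith)
    linarith
  · have := h.far b hb a ha (by linarith)
    have e : cr x' y' b a w = - cr x' y' a b w := by unfold cr; ring
    rw [e] at this
    linarith

theorem sign_neg (h : Ext x y S w ξ s x' y') {a b : V} (ha : a ∈ S) (hb : b ∈ S)
    (hs : s * (x b - x a) < 0) (hs' : s = 1 ∨ s = -1) : cr x' y' a b w < 0 := by
  have := h.sign hb ha (by linarith) hs'
  have e : cr x' y' b a w = - cr x' y' a b w := by unfold cr; ring
  rw [e] at this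
  linarith

end Ext

end Pool.Agent.Q230.RS
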