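import Pool.Agent.Q230.RS.Steps
import Pool.Agent.NPC.Dec

/-!
# Project RS: statements of the lemma jobs

Straight-line realizability of rotation systems of cubic graphs (MP_8b4fe7_lc).
-/

set_option autoImplicit false

namespace Pool.Agent.Q230.RS

open Pool.Agent.NPC

/-! ### RS-INS -/

/-- **RS-INS.** A new neighbour `v` of `c` can be inserted in the cone with the apex `c` spanned by
`a` and `b`, both to the right of `c`, at any abscissa to the right of `c`.

Proof. `cr x y c a b < 0` says that the slope of the ray from `c` to `a` is larger than that of the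
ray to `b`. On the vertical line with the abscissa `ξ` choose `η` strictly between the ordinates of
the two rays (a nonempty open interval), outside the finitely many ordinates for which `(ξ, η)` is on a
line through two points of `S`. Put `x' = Function.update x v ξ`, `y' = Function.update y v η`. -/
def S_INS : Prop := ∀ (V : Type) [DecidableEq V] (x y : V → ℝ) (S : Finset V) (c a b v : V) (ξ : ℝ),
  Bs x y S → c ∈ S → a ∈ S → b ∈ S → v ∉ S → a ≠ b → x c < x a → x c < x b → x c < ξ →
  (∀ z ∈ S, x z ≠ ξ) → cr x y c a b < 0 →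
  ∃ x' y' : V → ℝ, (∀ z ∈ S, x' z = x z) ∧ (∀ z ∈ S, y' z = y z) ∧ x' v = ξ ∧
    Bs x' y' (insert v S) ∧ 0 < cr x' y' c b v ∧ 0 < cr x' y' c v a

/-! ### RS-CYC, RS-CYX: cycles -/

/-- `c 0, …, c (k-1)` is a cycle. -/
structure IsCyc {V : Type} (G : Cub V) (k : ℕ) (c : ℕ → V) : Prop where
  k3 : 3 ≤ k
  inj : ∀ i < k, ∀ j < k, c i = c j → i = j
  adj : ∀ i, i + 1 < k → ∃ l, G.nb (c i) l = c (i + 1)
  cl : ∃ l, G.nb (c (k - 1)) l = c 0

/-- a shortest cycle -/
def MinCyc {V : Type} (G : Cub V) (k : ℕ) (c : ℕ → V) : Prop :=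
  IsCyc G k c ∧ ∀ k' c', IsCyc G k' c' → k ≤ k'

/-- **RS-CYC.** There is a shortest cycle.

Proof. It suffices to find a cycle (then take the least length, `Nat.find`). Start anywhere and walk
without turning back: a sequence `w : ℕ → V` with `w (n+1)` a neighbour of `w n` and
`w (n+2) ≠ w n` (each vertex has three neighbours). Since `V` is finite there are `i < j` with
`w i = w j`; choose them with `j - i` least. Then `w i, …, w (j-1)` are distinct and `j - i ≥ 3`
(`j - i = 1` contradicts `irr`, and `j - i = 2` is excluded). So `c m = w (i + m)` is a cycle of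
length `j - i`. -/
def S_CYC : Prop := ∀ (V : Type) [Finite V] [Nonempty V] (G : Cub V), ∃ k c, MinCyc G k c

/-- **RS-CYX.** Facts about a shortest cycle.

Proofs. (1) a chord would give the shorter cycle `c i, …, c j` of length `j - i + 1`.
(2) `z, c i, …, c j` is a cycle of length `j - i + 2`, and `z, c j, …, c (k-1), c 0, …, c i` is a
cycle of length `k - (j - i) + 2`.
(3) If `m = 0` then `v, a, c 0` is a triangle, against `4 ≤ k`; otherwise
`c 0, …, c m, a, v` is a cycle of length `m + 3` and `c m, …, c (k-1), c 0, v, a` is a cycle of length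
`k - m + 3`. -/
def S_CYX : Prop := ∀ (V : Type) (G : Cub V) (k : ℕ) (c : ℕ → V), MinCyc G k c →
  (∀ i j, i < j → j < k → (∃ l, G.nb (c i) l = c j) → j = i + 1 ∨ (i = 0 ∧ j = k - 1)) ∧
  (∀ z, (∀ i < k, c i ≠ z) → ∀ i j, i < j → j < k → (∃ l, G.nb z l = c i) →
    (∃ l, G.nb z l = c j) → k ≤ j - i + 2 ∧ j - i ≤ 2) ∧
  (4 ≤ k → ∀ v a, v ≠ a → (∀ i < k, c i ≠ v) → (∀ i < k, c i ≠ a) → (∃ l, G.nb v l = c 0) →
    (∃ l, G.nb v l = a) → ∀ m < k, (∃ l, G.nb a l = c m) → k ≤ m + 3 ∧ m ≤ 3)

/-! ### RS-K4 -/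

/-- **RS-KFN.** Four points in general position: the product of the four rotation signs is `1`.

Proof. Let `A = cr 0 1 2, B = cr 0 1 3, C = cr 0 2 3, D = cr 1 2 3`; then `A - B + C - D = 0`. All the
12 areas are `± A, B, C, D`. Go through the signs of `A, B, C, D` (not `A, C > 0 > B, D` and not
`A, C < 0 < B, D`); in each of the remaining 14 cases all `e i` are determined. -/
def S_KFN : Prop := ∀ (x y : Fin 4 → ℝ) (e : Fin 4 → ℝ), Bs x y Finset.univ →
  (∀ i, e i = 1 ∨ e i = -1) →
  Maj (e 0 * cr x y 0 1 2) (e 0 * cr x y 0 2 3) (e 0 * cr x y 0 3 1) →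
  Maj (e 1 * cr x y 1 0 2) (e 1 * cr x y 1 2 3) (e 1 * cr x y 1 3 0) →
  Maj (e 2 * cr x y 2 0 1) (e 2 * cr x y 2 1 3) (e 2 * cr x y 2 3 0) →
  Maj (e 3 * cr x y 3 0 1) (e 3 * cr x y 3 1 2) (e 3 * cr x y 3 2 0) →
  e 0 * e 1 * e 2 * e 3 = 1

/-- **RS-KFS.** Conversely, four signs with the product `1` are the rotation signs of some four points
in general position. Points (verified by program; first the signs, then the points 0, 1, 2, 3):
`(1,1,-1,-1)`: (-3,2),(0,1),(1,0),(2,0); `(-1,1,-1,1)`: (-1,1),(1,0),(0,0),(-3,-1);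
`(1,-1,1,-1)`: (0,0),(-3,-1),(2,0),(-1,1); `(1,1,1,1)`: (-3,0),(1,-1),(2,-1),(0,1);
`(-1,1,1,-1)`: (-2,-1),(2,0),(1,-1),(-1,0); `(1,-1,-1,1)`: (2,1),(-1,0),(0,0),(1,1);
`(-1,-1,-1,-1)`: (0,0),(2,3),(1,0),(-1,-2); `(-1,-1,1,1)`: (0,0),(-1,1),(-2,-1),(-3,0). -/
def S_KFS : Prop := ∀ e : Fin 4 → ℝ, (∀ i, e i = 1 ∨ e i = -1) → e 0 * e 1 * e 2 * e 3 = 1 →
  ∃ x y : Fin 4 → ℝ, Bs x y Finset.univ ∧
  Maj (e 0 * cr x y 0 1 2) (e 0 * cr x y 0 2 3) (e 0 * cr x y 0 3 1) ∧
  Maj (e 1 * cr x y 1 0 2) (e 1 * cr x y 1 2 3) (e 1 * cr x y 1 3 0) ∧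
  Maj (e 2 * cr x y 2 0 1) (e 2 * cr x y 2 1 3) (e 2 * cr x y 2 3 0) ∧
  Maj (e 3 * cr x y 3 0 1) (e 3 * cr x y 3 1 2) (e 3 * cr x y 3 2 0)

/-! ### RS-ANG -/

/-- The counterclockwise angle from the direction `z` to the direction `w`, in `[0, 2π)`. -/
noncomputable def ccw (z w : ℂ) : ℝ := toIcoMod Real.two_pi_pos 0 (Complex.arg (w / z))

/-- cross product of two complex numbers -/
def crc (z w : ℂ) : ℝ := z.re * w.im - z.im * w.re

/-- **RS-ANG.** Angles and cross products.

Proof. Divide by `A`: `ccw A B = ccw 1 (B / A)` and the cross products are multiplied by a positive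
number. With `β = ccw A B`, `γ = ccw A C` in `[0, 2π)` one has `crc A B > 0` iff `β ∈ (0, π)`,
`crc C A > 0` iff `γ ∈ (π, 2π)`, and `crc B C` has the sign of `sin (γ - β)`.
(1) Two of the three are positive: in each case `0 < β < γ`. (2) If (the cross products do not vanish
and) at most one were positive then at least two are negative, i.e. `Maj (crc A C) (crc C B) (crc B A)`
and (1) with `B, C` exchanged gives `γ < β`. -/
def S_ANG : Prop := ∀ A B C : ℂ, A ≠ 0 → B ≠ 0 → C ≠ 0 →
  (Maj (crc A B) (crc B C) (crc C A) → 0 < ccw A B ∧ ccw A B < ccw A C) ∧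
  (crc A B ≠ 0 → crc B C ≠ 0 → crc C A ≠ 0 → ccw A B < ccw A C →
    Maj (crc A B) (crc B C) (crc C A))

/-! ### The decision problem -/

/-- the list of the neighbours of `i` -/
def nbs (N : List (List ℕ)) (i : ℕ) : List ℕ := N.getD i []

/-- `N` is a finite simple graph with the vertices `0, …, N.length - 1` and a rotation system: the
list `nbs N i` consists of the neighbours of `i` in their cyclic order. -/
structure IsRotationSystem (N : List (List ℕ)) : Prop where
  lt : ∀ i < N.length, ∀ j ∈ nbs N i, j < N.length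
  irr : ∀ i < N.length, i ∉ nbs N i
  nodup : ∀ i < N.length, (nbs N i).Nodup
  symm : ∀ i < N.length, ∀ j ∈ nbs N i, i ∈ nbs N j

/-- all degrees are three -/
def Cubic (N : List (List ℕ)) : Prop := ∀ i < N.length, (nbs N i).length = 3

/-- `p` is a straight-line drawing of the graph `N`: distinct vertices are at distinct points and no
vertex is in the relative interior of an edge. -/
def IsDrawing (N : List (List ℕ)) (p : ℕ → ℂ) : Prop :=
  (∀ i < N.length, ∀ j < N.length, p i = p j → i = j) ∧
  ∀ i < N.length, ∀ j ∈ nbs N i, ∀ k < N.length, p k ∉ openSegment ℝ (p i) (p j)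

/-- The edges leave each vertex `i` in the counterclockwise cyclic order given by `nbs N i`: the
counterclockwise angles from the first edge to the edges of the list are increasing. -/
def Realizes (N : List (List ℕ)) (p : ℕ → ℂ) : Prop :=
  ∀ i < N.length, ∀ a ∈ (nbs N i).head?,
    ((nbs N i).map fun b => ccw (p a - p i) (p b - p i)).Pairwise (· < ·)

/-- the rotation system has a straight-line realization -/
def Realizable (N : List (List ℕ)) : Prop := ∃ p : ℕ → ℂ, IsDrawing N p ∧ Realizes N p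

/-- the cyclic order of a list of length three is increasing -/
def inc : List ℕ → Bool
  | [a, b, c] => (decide (a < b) && decide (b < c)) || (decide (b < c) && decide (c < a)) ||
      (decide (c < a) && decide (a < b))
  | _ => false

/-- On each component `K₄` the number of the vertices whose cyclic order is increasing is even. -/
def EvenK4 (N : List (List ℕ)) : Prop :=
  ∀ i < N.length, (∀ j ∈ nbs N i, ∀ k ∈ nbs N j, k = i ∨ k ∈ nbs N i) →
    ((i :: nbs N i).filter (fun v => inc (nbs N v))).length % 2 = 0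

/-- **RS-POL.** The combinatorial condition can be tested in polynomial time.

Proof. Bounded quantifiers over `List.range N.length` and over the lists `nbs N i`; use the closure
properties of `Pool.Agent.NPC.Poly` (`Poly.all`, `Poly.getD`, `Poly.filter`, …; see e.g.
`Pool/Agent/Q230/DP`, `Pool/Agent/Q102/IP/Pll.lean`). -/
def S_POL : Prop := ∃ d : List (List ℕ) → Bool, Poly d ∧
  ∀ N, d N = true ↔ (IsRotationSystem N ∧ Cubic N ∧ EvenK4 N)

end Pool.Agent.Q230.RS
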