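import Pool.Agent.Q230.RS.Tri
import Pool.Agent.Q230.RS.St

/-!
# Rotation systems of cubic graphs: placing a cycle
-/

set_option autoImplicit false

namespace Pool.Agent.Q230.RS

variable {V : Type} [DecidableEq V]

/-- all placed vertices but the end `v` and the exempt vertex `r` are safe -/
structure StE (G : Cub V) (r : V) (x y : V → ℝ) (S : Finset V) (v : V) (j : Fin 3) : Prop where
  base : Bs x y S
  vS : v ∈ S
  jS : G.nb v j ∈ S
  rest : ∀ i, i ≠ j → G.nb v i ∉ S
  oks : ∀ z ∈ S, z ≠ v → z ≠ r → ok G x y S z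

omit [DecidableEq V] in
theorem StE.neg {G : Cub V} {r : V} {x y : V → ℝ} {S : Finset V} {v : V} {j : Fin 3}
    (h : StE G r x y S v j) : StE G r (fun v => - x v) (fun v => - y v) S v j :=
  ⟨Bs_neg h.base, h.vS, h.jS, h.rest, fun z hz hzv hzr => ok_neg (h.oks z hz hzv hzr)⟩

theorem StE.place {G : Cub V} {r : V} {x y : V → ℝ} {S : Finset V} {p : V} {j k e : Fin 3}
    (h : StE G r x y S p j) (hjk : j ≠ k) (he : G.nb (G.nb p k) e = p)
    (hu : ∀ i, G.nb (G.nb p k) i ∈ S → G.nb (G.nb p k) i = p) {s ξ : ℝ} (hs : s = 1 ∨ s = -1)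
    (h1 : 0 < sg j k * s * (x (G.nb p j) - x p)) (hξ : ∀ z ∈ S, x z ≠ ξ)
    (side : 0 < (x (G.nb p j) - x p) * (ξ - x p)) :
    ∃ x' y', Ext x y S (G.nb p k) ξ s x' y' ∧
      StE G r x' y' (insert (G.nb p k) S) (G.nb p k) e := by
  obtain ⟨x', y', hE⟩ := exists_ext x y S h.base (G.nb p k) (h.rest k hjk.symm) ξ hξ s hs
  refine ⟨x', y', hE, hE.base, Finset.mem_insert_self _ _, ?_, ?_, ?_⟩
  · rw [he]; exact Finset.mem_insert_of_mem h.vS
  · intro i hi hmem
    rcases Finset.mem_insert.1 hmem with hmem | hmem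
    · exact G.irr _ _ hmem
    · exact hi (G.inj _ ((hu i hmem).trans he.symm))
  · intro z hz hzu hzr
    rcases Finset.mem_insert.1 hz with hz | hz
    · exact absurd hz hzu
    · by_cases hzp : z = p
      · rw [hzp]; exact hE.ok_end hs h.vS hjk h.jS rfl h.rest side h1
      · exact hE.keep hs hz (h.oks z hz hzp hzr)

theorem StE.close2 {G : Cub V} {r : V} {x y : V → ℝ} {S : Finset V} {v : V} {j k : Fin 3}
    (h : StE G r x y S v j) (hjk : j ≠ k) {s : ℝ} (hs : s = 1 ∨ s = -1)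
    (h0 : x v < x (G.nb v j)) (h1 : 0 < sg j k * s) {l m : Fin 3} (hlm : l ≠ m)
    (hl : G.nb (G.nb v k) l = v) (hm : G.nb (G.nb v k) m ∈ S)
    (h3 : ∀ i, i ≠ l → i ≠ m → G.nb (G.nb v k) i ∉ S)
    (h2 : 0 < sg l m * s * (x (G.nb (G.nb v k) m) - x v)) :
    ∃ ξ x' y', (∀ z ∈ S, x z < ξ) ∧ Ext x y S (G.nb v k) ξ s x' y' ∧
      ∀ z ∈ insert (G.nb v k) S, z ≠ r → ok G x' y' (insert (G.nb v k) S) z := by
  obtain ⟨ξ, hξ⟩ := exists_right x S
  obtain ⟨x', y', hE⟩ := exists_ext x y S h.base (G.nb v k) (h.rest k hjk.symm) ξ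
    (fun a ha => (hξ a ha).ne) s hs
  refine ⟨ξ, x', y', hξ, hE, ?_⟩
  intro z hz hzr
  rcases Finset.mem_insert.1 hz with hz | hz
  · rw [hz]
    refine hE.ok_new2 hs hlm (by rw [hl]; exact h.vS) hm h3 ?_ ?_
    · rw [hl]
      exact mul_pos_of_neg_of_neg (by linarith [hξ v h.vS]) (by linarith [hξ _ hm])
    · rw [hl]; exact h2
  · by_cases hzv : z = v
    · rw [hzv]
      exact hE.ok_end hs h.vS hjk h.jS rfl h.rest
        (mul_pos (by linarith) (by linarith [hξ v h.vS])) (mul_pos h1 (by linarith))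
    · exact hE.keep hs hz (h.oks z hz hzv hzr)

/-- closing the cycle at the exempt vertex `r` -/
theorem cyc_close {G : Cub V} {r : V} {x y : V → ℝ} {S : Finset V} {p : V} {j k e f l m : Fin 3}
    (h : StE G r x y S p j) (hright : ∀ z ∈ S, z ≠ p → x z < x p) (hr : r ∈ S) (hrp : r ≠ p)
    (hjk : j ≠ k) (he : G.nb (G.nb p k) e = p)
    (hu : ∀ i, G.nb (G.nb p k) i ∈ S → G.nb (G.nb p k) i = p) (hfe : f ≠ e)
    (hl : G.nb (G.nb (G.nb p k) f) l = G.nb p k) (hm : G.nb (G.nb (G.nb p k) f) m = r)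
    (h3 : ∀ i, i ≠ l → i ≠ m → G.nb (G.nb (G.nb p k) f) i ∉ S) :
    ∃ x₁ y₁ ξ x' y', (∀ z ∈ S, x₁ z = x z) ∧
      StE G r x₁ y₁ (insert (G.nb p k) S) (G.nb p k) e ∧
      (∀ z ∈ insert (G.nb p k) S, x₁ z < ξ) ∧
      Ext x₁ y₁ (insert (G.nb p k) S) (G.nb (G.nb p k) f) ξ (sg e f) x' y' ∧
      ∀ z ∈ insert (G.nb (G.nb p k) f) (insert (G.nb p k) S), z ≠ r →
        ok G x' y' (insert (G.nb (G.nb p k) f) (insert (G.nb p k) S)) z := by
  have huS : G.nb p k ∉ S := h.rest k hjk.symm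
  have hlm : l ≠ m := fun e' => huS (by rw [← hl, e', hm]; exact hr)
  have hlt : x (G.nb p j) < x p := hright _ h.jS (G.irr p j)
  have hax : x r < x p := hright _ hr hrp
  have hs0 : - sg j k = 1 ∨ - sg j k = -1 := by
    rcases sg_cases j k with h | h <;> rw [h] <;> norm_num
  have h10 : 0 < sg j k * (- sg j k) * (x (G.nb p j) - x p) := by
    have := sg_sq j k
    have e1 : sg j k * (- sg j k) * (x (G.nb p j) - x p) =
      (sg j k * sg j k) * (x p - x (G.nb p j)) := by ring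
    rw [e1, this]; linarith
  obtain ⟨ξ, hξp, hξ, hM⟩ : ∃ ξ, ξ < x p ∧ (∀ z ∈ S, x z ≠ ξ) ∧
      0 < sg l m * sg e f * (x r - ξ) := by
    have hc : sg l m * sg e f = 1 ∨ sg l m * sg e f = -1 := by
      rcases sg_cases l m with h1 | h1 <;> rcases sg_cases e f with h2 | h2 <;>
        rw [h1, h2] <;> norm_num
    rcases hc with hc | hc
    · obtain ⟨ξ, hξ⟩ := exists_left x S
      refine ⟨ξ, hξ p h.vS, fun z hz => (hξ z hz).ne', ?_⟩
      rw [hc]; linarith [hξ _ hr]
    · obtain ⟨ξ, h1, h2, h3⟩ := exists_between' x S hax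
      refine ⟨ξ, h2, h3, ?_⟩
      rw [hc]; linarith
  obtain ⟨x₁, y₁, hE, hst'⟩ := h.place hjk he hu hs0 h10 hξ
    (mul_pos_of_neg_of_neg (by linarith) (by linarith))
  obtain ⟨ξ', x', y', hξ', hE', hok⟩ := hst'.close2 (k := f) hfe.symm (sg_cases e f) (by
    rw [he, hE.ex p h.vS, hE.xw]; exact hξp) (by rw [sg_sq]; norm_num) hlm hl
    (by rw [hm]; exact Finset.mem_insert_of_mem hr) (by
      intro i hil him hi
      rcases Finset.mem_insert.1 hi with hi | hi
      · exact hil (G.inj _ (hi.trans hl.symm))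
      · exact h3 i hil him hi) (by rw [hm, hE.ex _ hr, hE.xw]; exact hM)
  exact ⟨x₁, y₁, ξ', x', y', hE.ex, hst', hξ', hE', hok⟩

/-! ### Placing a path -/

/-- the first `n + 1` vertices of the path -/
def P (c : ℕ → V) (n : ℕ) : Finset V := (Finset.range (n + 1)).image c

theorem mem_P {c : ℕ → V} {n : ℕ} {z : V} : z ∈ P c n ↔ ∃ i ≤ n, c i = z := by
  unfold P; simp [Nat.lt_succ_iff]

theorem P_succ (c : ℕ → V) (n : ℕ) : P c (n + 1) = insert (c (n + 1)) (P c n) := by
  unfold P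
  rw [Finset.range_add_one (n := n + 1), Finset.image_insert]

theorem path {G : Cub V} {k : ℕ} {c : ℕ → V} (hc : IsCyc G k c)
    (hind : ∀ i j, i < j → j < k → (∃ l, G.nb (c i) l = c j) → j = i + 1 ∨ (i = 0 ∧ j = k - 1)) :
    ∀ n, n + 4 ≤ k → ∃ (x y : V → ℝ) (j : Fin 3), StE G (c 0) x y (P c (n + 1)) (c (n + 1)) j ∧
      G.nb (c (n + 1)) j = c n ∧
      (Even n → x (c 0) < x (c 1) ∧ ∀ z ∈ P c (n + 1), z ≠ c (n + 1) → x z < x (c (n + 1))) ∧
      (¬ Even n → x (c 1) < x (c 0) ∧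
        ∀ z ∈ P c (n + 1), z ≠ c (n + 1) → x z < x (c (n + 1))) := by
  intro n
  induction n with
  | zero =>
    intro hk
    obtain ⟨l, hl⟩ := hc.adj 0 (by omega)
    obtain ⟨j, hj⟩ : ∃ j, G.nb (c 1) j = c 0 := by
      have := G.sym (c 0) l
      rw [hl] at this
      exact this
    have h01 : c 0 ≠ c 1 := fun e => by
      have := hc.inj 0 (by omega) 1 (by omega) e
      omega
    have mem : ∀ z, z ∈ P c (0 + 1) ↔ z = c 0 ∨ z = c 1 := by
      intro z
      rw [mem_P]
      constructor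
      · rintro ⟨i, hi, rfl⟩
        interval_cases i
        · exact Or.inl rfl
        · exact Or.inr rfl
      · rintro (rfl | rfl)
        · exact ⟨0, by omega, rfl⟩
        · exact ⟨1, by omega, rfl⟩
    let x : V → ℝ := fun v => if v = c 0 then 0 else 1
    have x0 : x (c 0) = 0 := by simp [x]
    have x1 : x (c 1) = 1 := by simp [x, h01.symm]
    refine ⟨x, fun _ => 0, j, ⟨⟨?_, ?_⟩, ?_, ?_, ?_, ?_⟩, hj, ?_, ?_⟩
    · intro a ha b hb hab
      rcases (mem a).1 ha with rfl | rfl <;> rcases (mem b).1 hb with rfl | rfl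
      · exact absurd rfl hab
      · rw [x0, x1]; norm_num
      · rw [x0, x1]; norm_num
      · exact absurd rfl hab
    · intro a ha b hb d hd h1 h2 h3
      exfalso
      rcases (mem a).1 ha with rfl | rfl <;> rcases (mem b).1 hb with rfl | rfl <;>
        rcases (mem d).1 hd with rfl | rfl <;>
        first | exact h1 rfl | exact h2 rfl | exact h3 rfl
    · exact (mem _).2 (Or.inr rfl)
    · show G.nb (c 1) j ∈ _
      rw [hj]; exact (mem _).2 (Or.inl rfl)
    · intro i hi hmem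
      rcases (mem _).1 hmem with h | h
      · exact hi (G.inj _ (h.trans hj.symm))
      · exact G.irr _ _ h
    · intro z hz h1 h2
      rcases (mem z).1 hz with h | h
      · exact absurd h h2
      · exact absurd h h1
    · intro _
      refine ⟨by rw [x0, x1]; norm_num, ?_⟩
      intro z hz hz1
      rcases (mem z).1 hz with h | h
      · show x z < x (c 1)
        rw [h, x0, x1]; norm_num
      · exact absurd h hz1
    · intro h
      exact absurd Even.zero h
  | succ n ih =>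
    intro hk
    obtain ⟨x, y, j, hst, hj, h1, h2⟩ := ih (by omega)
    obtain ⟨k', hk'⟩ := hc.adj (n + 1) (by omega)
    have hu : ∀ i, G.nb (c (n + 1 + 1)) i ∈ P c (n + 1) → G.nb (c (n + 1 + 1)) i = c (n + 1) := by
      intro i hi
      obtain ⟨t, ht, hti⟩ := mem_P.1 hi
      have hb : ∃ l, G.nb (c t) l = c (n + 1 + 1) := by
        have := G.sym (c (n + 1 + 1)) i
        rw [← hti] at this
        exact this
      rcases hind t (n + 1 + 1) (by omega) (by omega) hb with h | h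
      · have : t = n + 1 := by omega
        rw [← hti, this]
      · omega
    have hjk : j ≠ k' := by
      intro e
      rw [← e, hj] at hk'
      have := hc.inj _ (by omega) _ (by omega) hk'
      omega
    obtain ⟨e, he⟩ : ∃ e, G.nb (c (n + 1 + 1)) e = c (n + 1) := by
      have := G.sym (c (n + 1)) k'
      rw [hk'] at this
      exact this
    have hright : ∀ z ∈ P c (n + 1), z ≠ c (n + 1) → x z < x (c (n + 1)) := by
      by_cases hn : Even n
      · exact (h1 hn).2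
      · exact (h2 hn).2
    have hs0 : - sg j k' = 1 ∨ - sg j k' = -1 := by
      rcases sg_cases j k' with h | h <;> rw [h] <;> norm_num
    have hlt : x (G.nb (c (n + 1)) j) < x (c (n + 1)) := hright _ hst.jS (G.irr _ _)
    have h10 : 0 < sg j k' * (- sg j k') * (x (G.nb (c (n + 1)) j) - x (c (n + 1))) := by
      have := sg_sq j k'
      have e1 : sg j k' * (- sg j k') * (x (G.nb (c (n + 1)) j) - x (c (n + 1))) =
        (sg j k' * sg j k') * (x (c (n + 1)) - x (G.nb (c (n + 1)) j)) := by ring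
      rw [e1, this]; linarith
    obtain ⟨ξ, hξ⟩ := exists_left x (P c (n + 1))
    obtain ⟨x', y', hE, hst'⟩ := hst.place (k := k') (e := e) hjk (by rw [hk']; exact he)
      (by rw [hk']; exact hu) hs0 h10 (fun z hz => (hξ z hz).ne')
      (mul_pos_of_neg_of_neg (by linarith) (by linarith [hξ _ hst.vS]))
    rw [hk'] at hE hst'
    rw [← P_succ] at hst'
    have hextr : ∀ z ∈ P c (n + 1 + 1), z ≠ c (n + 1 + 1) →
        - x' z < - x' (c (n + 1 + 1)) := by
      intro z hz hzn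
      rw [P_succ] at hz
      rcases Finset.mem_insert.1 hz with hz | hz
      · exact absurd hz hzn
      · rw [hE.xw, hE.ex z hz]; linarith [hξ z hz]
    have h0P : c 0 ∈ P c (n + 1) := mem_P.2 ⟨0, by omega, rfl⟩
    have h1P : c 1 ∈ P c (n + 1) := mem_P.2 ⟨1, by omega, rfl⟩
    refine ⟨fun v => - x' v, fun v => - y' v, e, hst'.neg, he, ?_, ?_⟩
    · intro hn
      refine ⟨?_, hextr⟩
      have hn' : ¬ Even n := by
        intro h
        rw [Nat.even_add_one] at hn
        exact hn h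
      show - x' (c 0) < - x' (c 1)
      rw [hE.ex _ h0P, hE.ex _ h1P]
      linarith [(h2 hn').1]
    · intro hn
      refine ⟨?_, hextr⟩
      have hn' : Even n := by
        rw [Nat.even_add_one, not_not] at hn
        exact hn
      show - x' (c 1) < - x' (c 0)
      rw [hE.ex _ h0P, hE.ex _ h1P]
      linarith [(h1 hn').1]

/-- **Placing an induced cycle of length at least four**: all vertices but `c 0` are safe. -/
theorem cyc_place {G : Cub V} {k : ℕ} {c : ℕ → V} (hc : IsCyc G k c) (hk : 4 ≤ k)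
    (hind : ∀ i j, i < j → j < k → (∃ l, G.nb (c i) l = c j) → j = i + 1 ∨ (i = 0 ∧ j = k - 1)) :
    ∃ x y : V → ℝ, Bs x y (P c (k - 1)) ∧
      (∀ z ∈ P c (k - 1), z ≠ c 0 → ok G x y (P c (k - 1)) z) ∧
      (Even k → x (c 0) < x (c 1) ∧ x (c 0) < x (c (k - 1))) ∧
      (¬ Even k → x (c 1) < x (c 0) ∧ x (c 0) < x (c (k - 1))) := by
  obtain ⟨n, rfl⟩ : ∃ n, k = n + 4 := ⟨k - 4, by omega⟩
  obtain ⟨x, y, j, hst, hj, h1, h2⟩ := path hc hind n le_rfl
  have hright : ∀ z ∈ P c (n + 1), z ≠ c (n + 1) → x z < x (c (n + 1)) := by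
    by_cases hn : Even n
    · exact (h1 hn).2
    · exact (h2 hn).2
  obtain ⟨k', hk'⟩ := hc.adj (n + 1) (by omega)
  obtain ⟨f, hf⟩ := hc.adj (n + 2) (by omega)
  obtain ⟨m, hm⟩ := hc.cl
  have e3 : n + 4 - 1 = n + 3 := by omega
  rw [e3] at hm
  have hf' : G.nb (c (n + 2)) f = c (n + 3) := hf
  have hk'' : G.nb (c (n + 1)) k' = c (n + 2) := hk'
  obtain ⟨e, he⟩ : ∃ e, G.nb (c (n + 2)) e = c (n + 1) := by
    have := G.sym (c (n + 1)) k'
    rw [hk''] at this
    exact this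
  obtain ⟨l, hl⟩ : ∃ l, G.nb (c (n + 3)) l = c (n + 2) := by
    have := G.sym (c (n + 2)) f
    rw [hf'] at this
    exact this
  have h0P : c 0 ∈ P c (n + 1) := mem_P.2 ⟨0, by omega, rfl⟩
  have h1P : c 1 ∈ P c (n + 1) := mem_P.2 ⟨1, by omega, rfl⟩
  have hne : ∀ a b, a < n + 4 → b < n + 4 → a ≠ b → c a ≠ c b :=
    fun a b ha hb hab e' => hab (hc.inj a ha b hb e')
  have hjk : j ≠ k' := by
    intro e'
    rw [← e', hj] at hk''
    exact hne n (n + 2) (by omega) (by omega) (by omega) hk''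
  have hfe : f ≠ e := by
    intro e'
    rw [e', he] at hf'
    exact hne _ _ (by omega) (by omega) (by omega) hf'
  have hu : ∀ i, G.nb (c (n + 2)) i ∈ P c (n + 1) → G.nb (c (n + 2)) i = c (n + 1) := by
    intro i hi
    obtain ⟨t, ht, hti⟩ := mem_P.1 hi
    have hb : ∃ l, G.nb (c t) l = c (n + 2) := by
      have := G.sym (c (n + 2)) i
      rw [← hti] at this
      exact this
    rcases hind t (n + 2) (by omega) (by omega) hb with h | h
    · have : t = n + 1 := by omega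
      rw [← hti, this]
    · omega
  have h3 : ∀ i, i ≠ l → i ≠ m → G.nb (c (n + 3)) i ∉ P c (n + 1) := by
    intro i hil him hi
    obtain ⟨t, ht, hti⟩ := mem_P.1 hi
    have hb : ∃ l, G.nb (c t) l = c (n + 3) := by
      have := G.sym (c (n + 3)) i
      rw [← hti] at this
      exact this
    rcases hind t (n + 3) (by omega) (by omega) hb with h | h
    · omega
    · rw [h.1] at hti
      exact him (G.inj _ (hti.symm.trans hm.symm))
  obtain ⟨x₁, y₁, ξ, x', y', hx₁, hst₁, hξ, hE, hok⟩ := cyc_close (k := k') (e := e) (f := f)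
    (l := l) (m := m) hst hright h0P (hne _ _ (by omega) (by omega) (by omega)) hjk
    (by rw [hk'']; exact he) (by rw [hk'']; exact hu) hfe (by rw [hk'', hf']; exact hl)
    (by rw [hk'', hf']; exact hm) (by rw [hk'', hf']; exact h3)
  have hS2 : insert (G.nb (c (n + 1)) k') (P c (n + 1)) = P c (n + 2) := by
    rw [hk'', P_succ c (n + 1)]
  have hS3 : insert (G.nb (G.nb (c (n + 1)) k') f) (insert (G.nb (c (n + 1)) k') (P c (n + 1))) =
      P c (n + 3) := by
    rw [hS2, hk'', hf', P_succ c (n + 2)]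
  have hP2 : ∀ z ∈ P c (n + 1), z ∈ P c (n + 2) := fun z hz => by
    rw [← hS2]; exact Finset.mem_insert_of_mem hz
  have hbase := hE.base
  rw [hS3] at hok hbase
  rw [hS2] at hE hξ
  rw [hk'', hf'] at hE
  refine ⟨x', y', ?_, ?_, ?_, ?_⟩
  · rw [e3]; exact hbase
  · rw [e3]; exact hok
  · intro hev
    have hn : Even n := by
      rw [Nat.even_iff] at hev ⊢; omega
    rw [e3]
    rw [hE.xw, hE.ex _ (hP2 _ h0P), hE.ex _ (hP2 _ h1P), hx₁ _ h0P, hx₁ _ h1P]
    refine ⟨(h1 hn).1, ?_⟩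
    have := hξ _ (hP2 _ h0P)
    rwa [hx₁ _ h0P] at this
  · intro hev
    have hn : ¬ Even n := by
      rw [Nat.even_iff] at hev ⊢; omega
    rw [e3]
    rw [hE.xw, hE.ex _ (hP2 _ h0P), hE.ex _ (hP2 _ h1P), hx₁ _ h0P, hx₁ _ h1P]
    refine ⟨(h2 hn).1, ?_⟩
    have := hξ _ (hP2 _ h0P)
    rwa [hx₁ _ h0P] at this

end Pool.Agent.Q230.RS
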