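import Pool.Agent.Q230.RS.Path

/-!
# Rotation systems of cubic graphs: four-cycles all of whose vertices are safe
-/

set_option autoImplicit false

namespace Pool.Agent.Q230.RS

variable {V : Type} [DecidableEq V]

/-- A four-cycle whose turns at two opposite vertices are opposite has a placement in which all
vertices are safe. -/
theorem quad {G : Cub V} {v0 v1 v2 v3 : V} {a01 a03 a10 a12 a21 a23 a32 a30 : Fin 3}
    (h01 : G.nb v0 a01 = v1) (h03 : G.nb v0 a03 = v3) (h10 : G.nb v1 a10 = v0)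
    (h12 : G.nb v1 a12 = v2) (h21 : G.nb v2 a21 = v1) (h23 : G.nb v2 a23 = v3)
    (h32 : G.nb v3 a32 = v2) (h30 : G.nb v3 a30 = v0) (n02 : v0 ≠ v2) (n13 : v1 ≠ v3)
    (c02 : ∀ i, G.nb v0 i ≠ v2) (c13 : ∀ i, G.nb v1 i ≠ v3)
    (hs : sg a01 a03 = sg a21 a23) : Good G {v3, v2, v1, v0} := by
  have n01 : v0 ≠ v1 := fun e => G.irr _ _ (h01.trans e.symm)
  have n12 : v1 ≠ v2 := fun e => G.irr _ _ (h12.trans e.symm)
  have n23 : v2 ≠ v3 := fun e => G.irr _ _ (h23.trans e.symm)
  have n03 : v0 ≠ v3 := fun e => G.irr _ _ (h03.trans e.symm)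
  have c20 : ∀ i, G.nb v2 i ≠ v0 := by
    intro i hi
    obtain ⟨j, hj⟩ := G.sym v2 i
    rw [hi] at hj
    exact c02 j hj
  have c31 : ∀ i, G.nb v3 i ≠ v1 := by
    intro i hi
    obtain ⟨j, hj⟩ := G.sym v3 i
    rw [hi] at hj
    exact c13 j hj
  have j1 : a10 ≠ a12 := fun e => n02 (by rw [← h10, ← h12, e])
  have j2 : a21 ≠ a23 := fun e => n13 (by rw [← h21, ← h23, e])
  have j3 : a32 ≠ a30 := fun e => n02 (by rw [← h32, ← h30, e])
  have j0 : a01 ≠ a03 := fun e => n13 (by rw [← h01, ← h03, e])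
  let x : V → ℝ := fun v => if v = v0 then 0 else 1
  have x0 : x v0 = 0 := by simp [x]
  have x1 : x v1 = 1 := by simp [x, n01.symm]
  have mem : ∀ z, z ∈ ({v1, v0} : Finset V) ↔ z = v0 ∨ z = v1 := by
    intro z; simp; tauto
  have hst : StE G v0 x (fun _ => 0) {v1, v0} v1 a10 := by
    refine ⟨⟨?_, ?_⟩, ?_, ?_, ?_, ?_⟩
    · intro a ha b hb hab
      rcases (mem a).1 ha with rfl | rfl <;> rcases (mem b).1 hb with rfl | rfl
      · exact absurd rfl hab
      · rw [x0, x1]; norm_num
      · rw [x0, x1]; norm_num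
      · exact absurd rfl hab
    · intro a ha b hb d hd h1 h2 h3
      exfalso
      rcases (mem a).1 ha with rfl | rfl <;> rcases (mem b).1 hb with rfl | rfl <;>
        rcases (mem d).1 hd with rfl | rfl <;>
        first | exact h1 rfl | exact h2 rfl | exact h3 rfl
    · simp
    · rw [h10]; simp
    · intro i hi hmem
      rcases (mem _).1 hmem with h | h
      · exact hi (G.inj _ (h.trans h10.symm))
      · exact G.irr _ _ h
    · intro z hz h1 h2
      rcases (mem z).1 hz with h | h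
      · exact absurd h h2
      · exact absurd h h1
  have hright : ∀ z ∈ ({v1, v0} : Finset V), z ≠ v1 → x z < x v1 := by
    intro z hz hz1
    rcases (mem z).1 hz with h | h
    · rw [h, x0, x1]; norm_num
    · exact absurd h hz1
  obtain ⟨x₁, y₁, ξ, x', y', hx₁, hst₁, hξ, hE, hok⟩ := cyc_close (k := a12) (e := a21)
    (f := a23) (l := a32) (m := a30) hst hright (by simp) n01 j1 (by rw [h12]; exact h21)
    (by
      rw [h12]
      intro i hi
      rcases (mem _).1 hi with h | h
      · exact absurd h (c20 i)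
      · exact h) j2.symm (by rw [h12, h23]; exact h32) (by rw [h12, h23]; exact h30)
    (by
      rw [h12, h23]
      intro i h1 h2 hi
      rcases (mem _).1 hi with h | h
      · exact h2 (G.inj _ (h.trans h30.symm))
      · exact c31 i h)
  rw [h12, h23] at hok
  rw [h12, h23] at hE
  rw [h12] at hst₁ hξ
  refine ⟨x', y', hE.base, ?_⟩
  intro z hz
  by_cases hz0 : z = v0
  · rw [hz0]
    have h0S : v0 ∈ ({v2, v1, v0} : Finset V) := by simp
    have h1S : G.nb v0 a01 ∈ ({v2, v1, v0} : Finset V) := by rw [h01]; simp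
    have x1' : x₁ (G.nb v0 a01) = 1 := by
      rw [h01, hx₁ v1 (by simp), x1]
    have x0' : x₁ v0 = 0 := by rw [hx₁ v0 (by simp), x0]
    refine hE.ok_end (sg_cases _ _) h0S j0 h1S h03 ?_ ?_ ?_
    · intro i hi hmem
      have hmem' : G.nb v0 i = v2 ∨ G.nb v0 i = v1 ∨ G.nb v0 i = v0 := by simpa using hmem
      rcases hmem' with h | h | h
      · exact c02 i h
      · exact hi (G.inj _ (h.trans h01.symm))
      · exact G.irr _ _ h
    · rw [x1', x0']
      have := hξ v0 (by simp)
      rw [x0'] at this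
      linarith
    · rw [x1', x0', hs, sg_sq]; norm_num
  · exact hok z hz hz0

/-- **Start with `K_{2,3}`.** -/
theorem start_K23 {G : Cub V} {h h' : V} {m : Fin 3 → V} (hm : Function.Injective m)
    (hh : h ≠ h') (a b : Fin 3 → Fin 3) (ha : ∀ i, G.nb (m i) (a i) = h)
    (hb : ∀ i, G.nb (m i) (b i) = h') (c1 : ∀ i, G.nb h i ≠ h')
    (c2 : ∀ i j t, G.nb (m i) t ≠ m j) :
    ∃ S' : Finset V, S'.Nonempty ∧ Reach G S' := by
  -- the indices of the vertices `m i` at `h` and `h'`
  choose a' ha' using fun i => G.sym (m i) (a i)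
  choose b' hb' using fun i => G.sym (m i) (b i)
  have hpig : ∃ i j : Fin 3, i ≠ j ∧ sg (a i) (b i) = sg (a j) (b j) := by
    by_contra hcon
    push Not at hcon
    have e1 := hcon 0 1 (by decide)
    have e2 := hcon 1 2 (by decide)
    have e3 := hcon 0 2 (by decide)
    rcases sg_cases (a 0) (b 0) with f0 | f0 <;> rcases sg_cases (a 1) (b 1) with f1 | f1 <;>
      rcases sg_cases (a 2) (b 2) with f2 | f2 <;> rw [f0, f1] at e1 <;> rw [f1, f2] at e2 <;>
      rw [f0, f2] at e3 <;> first | exact e1 rfl | exact e2 rfl | exact e3 rfl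
  obtain ⟨i, j, hij, hs⟩ := hpig
  -- the four-cycle `m i, h, m j, h'`
  have hi1 : G.nb h (a' i) = m i := by have := ha' i; rwa [ha i] at this
  have hi2 : G.nb h (a' j) = m j := by have := ha' j; rwa [ha j] at this
  have hi3 : G.nb h' (b' i) = m i := by have := hb' i; rwa [hb i] at this
  have hi4 : G.nb h' (b' j) = m j := by have := hb' j; rwa [hb j] at this
  have := quad (G := G) (v0 := m i) (v1 := h) (v2 := m j) (v3 := h') (ha i) (hb i) hi1 hi2 (ha j)
    (hb j) hi4 hi3 (fun e => hij (hm e)) hh (fun t => c2 i j t) c1 hs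
  exact ⟨_, ⟨h', by simp⟩, Or.inl this⟩

end Pool.Agent.Q230.RS
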