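import Pool.Agent.Q230.RS.Steps

/-!
# Rotation systems of cubic graphs: the extension theorem
-/

set_option autoImplicit false

namespace Pool.Agent.Q230.RS

variable {V : Type*} [DecidableEq V]

/-! ### Choice of abscissas -/

omit [DecidableEq V] in
theorem exists_right (x : V → ℝ) (S : Finset V) : ∃ ξ : ℝ, ∀ z ∈ S, x z < ξ := by
  classical
  induction S using Finset.induction_on with
  | empty => exact ⟨0, by simp⟩
  | insert a S ha ih =>
    obtain ⟨ξ, h⟩ := ih
    refine ⟨max ξ (x a + 1), fun z hz => ?_⟩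
    rcases Finset.mem_insert.1 hz with rfl | hz
    · exact lt_of_lt_of_le (by linarith) (le_max_right _ _)
    · exact lt_of_lt_of_le (h z hz) (le_max_left _ _)

omit [DecidableEq V] in
theorem exists_left (x : V → ℝ) (S : Finset V) : ∃ ξ : ℝ, ∀ z ∈ S, ξ < x z := by
  obtain ⟨ξ, h⟩ := exists_right (fun z => - x z) S
  exact ⟨-ξ, fun z hz => by have : - x z < ξ := h z hz; linarith⟩

omit [DecidableEq V] in
theorem exists_between' (x : V → ℝ) (S : Finset V) {A B : ℝ} (h : A < B) :
    ∃ ξ : ℝ, A < ξ ∧ ξ < B ∧ ∀ z ∈ S, x z ≠ ξ := by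
  classical
  have hinf : (Set.Ioo A B).Infinite := Set.Ioo_infinite h
  obtain ⟨ξ, h1, h2⟩ := hinf.exists_notMem_finset (S.image x)
  refine ⟨ξ, h1.1, h1.2, fun z hz e => h2 (Finset.mem_image.2 ⟨z, hz, e⟩)⟩

/-! ### States -/

/-- all placed vertices are safe -/
def Good (G : Cub V) (S : Finset V) : Prop :=
  ∃ x y : V → ℝ, Bs x y S ∧ ∀ u ∈ S, ok G x y S u

/-- all placed vertices but the end `v` are safe; `v` has one placed neighbour -/
structure St1 (G : Cub V) (x y : V → ℝ) (S : Finset V) (v : V) (j : Fin 3) : Prop where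
  base : Bs x y S
  vS : v ∈ S
  jS : G.nb v j ∈ S
  rest : ∀ i, i ≠ j → G.nb v i ∉ S
  oks : ∀ z ∈ S, z ≠ v → ok G x y S z

/-- the end `p` is the rightmost point, and its neighbour `u` has no other placed neighbour -/
def End (G : Cub V) (S : Finset V) (p u : V) : Prop :=
  ∃ (x y : V → ℝ) (j k : Fin 3), St1 G x y S p j ∧ (∀ z ∈ S, z ≠ p → x z < x p) ∧
    j ≠ k ∧ G.nb p k = u ∧ ∀ i, G.nb u i ∈ S → G.nb u i = p

/-- one of the two good states -/
def Reach (G : Cub V) (S : Finset V) : Prop := Good G S ∨ ∃ p u, End G S p u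

/-! ### Half turns -/

omit [DecidableEq V] in
theorem cr_neg (x y : V → ℝ) (a b c : V) :
    cr (fun v => - x v) (fun v => - y v) a b c = cr x y a b c := by
  unfold cr; ring

omit [DecidableEq V] in
theorem Bs_neg {x y : V → ℝ} {S : Finset V} (h : Bs x y S) :
    Bs (fun v => - x v) (fun v => - y v) S := by
  refine ⟨fun a ha b hb hab e => h.1 a ha b hb hab (neg_injective e), ?_⟩
  intro a ha b hb c hc h1 h2 h3
  rw [cr_neg]; exact h.2 a ha b hb c hc h1 h2 h3

omit [DecidableEq V] in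
theorem ok_neg {G : Cub V} {x y : V → ℝ} {S : Finset V} {u : V} (h : ok G x y S u) :
    ok G (fun v => - x v) (fun v => - y v) S u := by
  rcases h with ⟨h1, h2⟩ | ⟨i, h0, h1, h2, h3, h4⟩
  · refine Or.inl ⟨h1, ?_⟩
    unfold Rot at *
    rw [cr_neg, cr_neg, cr_neg]; exact h2
  · refine Or.inr ⟨i, h0, h1, h2, ?_, by rw [cr_neg]; exact h4⟩
    have e : (- x (G.nb u (i + 1)) - - x u) * (- x (G.nb u (i + 2)) - - x u) =
      (x (G.nb u (i + 1)) - x u) * (x (G.nb u (i + 2)) - x u) := by ring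
    simp only
    rw [e]; exact h3

omit [DecidableEq V] in
theorem St1.neg {G : Cub V} {x y : V → ℝ} {S : Finset V} {v : V} {j : Fin 3}
    (h : St1 G x y S v j) : St1 G (fun v => - x v) (fun v => - y v) S v j :=
  ⟨Bs_neg h.base, h.vS, h.jS, h.rest, fun z hz hzv => ok_neg (h.oks z hz hzv)⟩

/-! ### Closing steps -/

/-- the far point and its abscissa -/
theorem St1.far {G : Cub V} {x y : V → ℝ} {S : Finset V} {v : V} {j k : Fin 3}
    (h : St1 G x y S v j) (hjk : j ≠ k) {s : ℝ} (hs : s = 1 ∨ s = -1)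
    (h1 : 0 < sg j k * s * (x (G.nb v j) - x v)) :
    ∃ ξ x' y', Ext x y S (G.nb v k) ξ s x' y' ∧
      ((∀ z ∈ S, x z < ξ) ∨ ∀ z ∈ S, ξ < x z) ∧
      0 < (x (G.nb v j) - x v) * (ξ - x v) ∧
      ok G x' y' (insert (G.nb v k) S) v := by
  rcases lt_or_gt_of_ne (fun e => by rw [e] at h1; simp at h1 : x (G.nb v j) ≠ x v) with hlt | hlt
  · obtain ⟨ξ, hξ⟩ := exists_left x S
    obtain ⟨x', y', hE⟩ := exists_ext x y S h.base (G.nb v k) (h.rest k hjk.symm) ξ
      (fun a ha => (hξ a ha).ne') s hs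
    have hside : 0 < (x (G.nb v j) - x v) * (ξ - x v) :=
      mul_pos_of_neg_of_neg (by linarith) (by linarith [hξ v h.vS])
    exact ⟨ξ, x', y', hE, Or.inr hξ, hside,
      hE.ok_end hs h.vS hjk h.jS rfl h.rest hside h1⟩
  · obtain ⟨ξ, hξ⟩ := exists_right x S
    obtain ⟨x', y', hE⟩ := exists_ext x y S h.base (G.nb v k) (h.rest k hjk.symm) ξ
      (fun a ha => (hξ a ha).ne) s hs
    have hside : 0 < (x (G.nb v j) - x v) * (ξ - x v) :=
      mul_pos (by linarith) (by linarith [hξ v h.vS])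
    exact ⟨ξ, x', y', hE, Or.inl hξ, hside,
      hE.ok_end hs h.vS hjk h.jS rfl h.rest hside h1⟩

theorem close_aux {G : Cub V} {x y x' y' : V → ℝ} {S : Finset V} {v w : V} {ξ s : ℝ}
    (hE : Ext x y S w ξ s x' y') (hs : s = 1 ∨ s = -1)
    (hok : ∀ z ∈ S, z ≠ v → ok G x y S z) (h1 : ok G x' y' (insert w S) v)
    (h2 : ok G x' y' (insert w S) w) : Good G (insert w S) := by
  refine ⟨x', y', hE.base, fun z hz => ?_⟩
  rcases Finset.mem_insert.1 hz with rfl | hz
  · exact h2
  · by_cases hzv : z = v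
    · rw [hzv]; exact h1
    · exact hE.keep hs hz (hok z hz hzv)

theorem St1.close2 {G : Cub V} {x y : V → ℝ} {S : Finset V} {v : V} {j k : Fin 3}
    (h : St1 G x y S v j) (hjk : j ≠ k) {s : ℝ} (hs : s = 1 ∨ s = -1)
    (h1 : 0 < sg j k * s * (x (G.nb v j) - x v)) {l m : Fin 3} (hlm : l ≠ m)
    (hl : G.nb (G.nb v k) l = v) (hm : G.nb (G.nb v k) m ∈ S)
    (h3 : ∀ i, i ≠ l → i ≠ m → G.nb (G.nb v k) i ∉ S)
    (h2 : 0 < sg l m * s * (x (G.nb (G.nb v k) m) - x v)) : Good G (insert (G.nb v k) S) := by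
  obtain ⟨ξ, x', y', hE, hξ, hside, hv⟩ := h.far hjk hs h1
  refine close_aux hE hs h.oks hv ?_
  refine hE.ok_new2 hs hlm (by rw [hl]; exact h.vS) hm h3 ?_ ?_
  · rw [hl]
    rcases hξ with hξ | hξ
    · exact mul_pos_of_neg_of_neg (by linarith [hξ v h.vS]) (by linarith [hξ _ hm])
    · exact mul_pos (by linarith [hξ v h.vS]) (by linarith [hξ _ hm])
  · rw [hl]; exact h2

theorem St1.close3 {G : Cub V} {x y : V → ℝ} {S : Finset V} {v : V} {j k : Fin 3}
    (h : St1 G x y S v j) (hjk : j ≠ k) {s : ℝ} (hs : s = 1 ∨ s = -1)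
    (h1 : 0 < sg j k * s * (x (G.nb v j) - x v)) {l : Fin 3}
    (hl : G.nb (G.nb v k) l = v) (hS : ∀ i, G.nb (G.nb v k) i ∈ S)
    (hM : Maj (s * (x (G.nb (G.nb v k) (l + 1)) - x v))
      (s * (x (G.nb (G.nb v k) (l + 2)) - x (G.nb (G.nb v k) (l + 1))))
      (s * (x v - x (G.nb (G.nb v k) (l + 2))))) : Good G (insert (G.nb v k) S) := by
  obtain ⟨ξ, x', y', hE, hξ, hside, hv⟩ := h.far hjk hs h1
  refine close_aux hE hs h.oks hv ?_
  refine hE.ok_new3 hs l hS ?_
  rw [hl]; exact hM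

/-- placing the neighbour `u` of the end `p` -/
theorem St1.place {G : Cub V} {x y : V → ℝ} {S : Finset V} {p : V} {j k e : Fin 3}
    (h : St1 G x y S p j) (hjk : j ≠ k) (he : G.nb (G.nb p k) e = p)
    (hu : ∀ i, G.nb (G.nb p k) i ∈ S → G.nb (G.nb p k) i = p) {s ξ : ℝ} (hs : s = 1 ∨ s = -1)
    (h1 : 0 < sg j k * s * (x (G.nb p j) - x p)) (hξ : ∀ z ∈ S, x z ≠ ξ)
    (side : 0 < (x (G.nb p j) - x p) * (ξ - x p)) :
    ∃ x' y', Ext x y S (G.nb p k) ξ s x' y' ∧ St1 G x' y' (insert (G.nb p k) S) (G.nb p k) e := by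
  obtain ⟨x', y', hE⟩ := exists_ext x y S h.base (G.nb p k) (h.rest k hjk.symm) ξ hξ s hs
  refine ⟨x', y', hE, hE.base, Finset.mem_insert_self _ _, ?_, ?_, ?_⟩
  · rw [he]; exact Finset.mem_insert_of_mem h.vS
  · intro i hi hmem
    rcases Finset.mem_insert.1 hmem with hmem | hmem
    · exact G.irr _ _ hmem
    · exact hi (G.inj _ ((hu i hmem).trans he.symm))
  · intro z hz hzu
    rcases Finset.mem_insert.1 hz with hz | hz
    · exact absurd hz hzu
    · by_cases hzp : z = p
      · rw [hzp]; exact hE.ok_end hs h.vS hjk h.jS rfl h.rest side h1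
      · exact hE.keep hs hz (h.oks z hz hzp)

/-- placing the third neighbour `u` of the vertex `q` -/
theorem place0 {G : Cub V} {x y x' y' : V → ℝ} {S : Finset V} {q u : V} {e : Fin 3} {s ξ : ℝ}
    (hE : Ext x y S u ξ s x' y') (hs : s = 1 ∨ s = -1) (hq : q ∈ S) (he : G.nb u e = q)
    (hu : ∀ i, G.nb u i ∈ S → G.nb u i = q) (hok : ∀ z ∈ S, z ≠ q → ok G x y S z)
    (hq' : ok G x' y' (insert u S) q) : St1 G x' y' (insert u S) u e := by
  refine ⟨hE.base, Finset.mem_insert_self _ _, ?_, ?_, ?_⟩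
  · rw [he]; exact Finset.mem_insert_of_mem hq
  · intro i hi hmem
    rcases Finset.mem_insert.1 hmem with hmem | hmem
    · exact G.irr _ _ hmem
    · exact hi (G.inj _ ((hu i hmem).trans he.symm))
  · intro z hz hzu
    rcases Finset.mem_insert.1 hz with hz | hz
    · exact absurd hz hzu
    · by_cases hzp : z = q
      · rw [hzp]; exact hq'
      · exact hE.keep hs hz (hok z hz hzp)

theorem sgn_pos_of {t : ℝ} (ht : t = 1 ∨ t = -1) : 0 < t * t := by
  rcases ht with rfl | rfl <;> norm_num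

omit [DecidableEq V] in
/-- a vertex `w ∉ S` with `G.nb u f = w` has `u` as neighbour -/
theorem back {G : Cub V} (u : V) (f : Fin 3) : ∃ l, G.nb (G.nb u f) l = u := G.sym u f

/-- **Extension at a rightmost end.** -/
theorem ext2 {G : Cub V} {S : Finset V} {p u : V} (h : End G S p u) :
    ∃ S', S ⊂ S' ∧ Reach G S' := by
  obtain ⟨x, y, j, k, hst, hright, hjk, rfl, hu⟩ := h
  have huS : G.nb p k ∉ S := hst.rest k hjk.symm
  obtain ⟨e, he⟩ := back (G := G) p k
  have hlt : x (G.nb p j) < x p := hright _ hst.jS (G.irr p j)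
  -- the sign of `u`
  have hs0 : - sg j k = 1 ∨ - sg j k = -1 := by
    rcases sg_cases j k with h | h <;> rw [h] <;> norm_num
  have h10 : 0 < sg j k * (- sg j k) * (x (G.nb p j) - x p) := by
    have := sg_sq j k
    have e1 : sg j k * (- sg j k) * (x (G.nb p j) - x p) =
      (sg j k * sg j k) * (x p - x (G.nb p j)) := by ring
    rw [e1, this]; linarith
  have hws : ∀ f, f ≠ e → G.nb (G.nb p k) f ∉ S := by
    intro f hf hmem
    exact hf (G.inj _ ((hu f hmem).trans he.symm))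
  by_cases hA : ∃ f, f ≠ e ∧ ∀ i, G.nb (G.nb (G.nb p k) f) i ∉ S
  · -- a neighbour of `u` without placed neighbour
    obtain ⟨f, hfe, hf⟩ := hA
    obtain ⟨ξ, hξ⟩ := exists_left x S
    obtain ⟨x', y', hE, hst'⟩ := hst.place hjk he hu hs0 h10 (fun z hz => (hξ z hz).ne')
      (mul_pos_of_neg_of_neg (by linarith) (by linarith [hξ p hst.vS]))
    refine ⟨insert (G.nb p k) S, Finset.ssubset_insert huS, Or.inr ⟨G.nb p k,
      G.nb (G.nb p k) f, fun v => - x' v, fun v => - y' v, e, f, hst'.neg, ?_, hfe.symm, rfl, ?_⟩⟩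
    · intro z hz hzu
      rcases Finset.mem_insert.1 hz with hz | hz
      · exact absurd hz hzu
      · show - x' z < - x' (G.nb p k)
        rw [hE.xw, hE.ex z hz]; linarith [hξ z hz]
    · intro i hi
      rcases Finset.mem_insert.1 hi with hi | hi
      · exact hi
      · exact absurd hi (hf i)
  · -- both have placed neighbours; choose one with a placed neighbour other than `p`
    push Not at hA
    have hB : ∃ f, f ≠ e ∧ ∃ m, G.nb (G.nb (G.nb p k) f) m ∈ S ∧
        G.nb (G.nb (G.nb p k) f) m ≠ p := by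
      by_contra hcon
      push Not at hcon
      obtain ⟨m1, hm1⟩ := hA (e + 1) (fn1 e)
      obtain ⟨m2, hm2⟩ := hA (e + 2) (fn2 e)
      have e1 := hcon (e + 1) (fn1 e) m1 hm1
      have e2 := hcon (e + 2) (fn2 e) m2 hm2
      obtain ⟨i1, hi1⟩ := back (G := G) (G.nb (G.nb p k) (e + 1)) m1
      obtain ⟨i2, hi2⟩ := back (G := G) (G.nb (G.nb p k) (e + 2)) m2
      rw [e1] at hi1
      rw [e2] at hi2
      have a1 : i1 ≠ j := fun e' => hws (e + 1) (fn1 e) (by rw [← hi1, e']; exact hst.jS)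
      have a2 : i2 ≠ j := fun e' => hws (e + 2) (fn2 e) (by rw [← hi2, e']; exact hst.jS)
      have b1 : i1 ≠ k := fun e' => G.irr _ _ (by rw [← hi1, e'])
      have b2 : i2 ≠ k := fun e' => G.irr _ _ (by rw [← hi2, e'])
      have h12 := third_unique hjk a1 b1 a2 b2
      rw [h12] at hi2
      have := G.inj _ (hi1.symm.trans hi2)
      exact fn12 e this
    obtain ⟨f, hfe, m, hm, hmp⟩ := hB
    obtain ⟨l, hl⟩ := back (G := G) (G.nb p k) f
    have hlm : l ≠ m := fun e' => huS (by rw [← hl, e']; exact hm)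
    have hwu : G.nb (G.nb p k) f ≠ G.nb p k := G.irr _ _
    have hax : x (G.nb (G.nb (G.nb p k) f) m) < x p := hright _ hm hmp
    by_cases hall : ∀ i, i ≠ l → G.nb (G.nb (G.nb p k) f) i ∈ S
    · -- three placed neighbours
      have ha := hall (l + 1) (fn1 l)
      have hb := hall (l + 2) (fn2 l)
      have hab : G.nb (G.nb (G.nb p k) f) (l + 1) ≠ G.nb (G.nb (G.nb p k) f) (l + 2) :=
        fun e' => fn12 l (G.inj _ e')
      have hxab := hst.base.1 _ ha _ hb hab
      have hle : ∀ z ∈ S, x z ≤ x p := by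
        intro z hz
        by_cases hzp : z = p
        · rw [hzp]
        · exact (hright z hz hzp).le
      -- the abscissa of `u`
      obtain ⟨ξ, hξp, hξ, hM⟩ : ∃ ξ, ξ < x p ∧ (∀ z ∈ S, x z ≠ ξ) ∧
          Maj (sg e f * (x (G.nb (G.nb (G.nb p k) f) (l + 1)) - ξ))
            (sg e f * (x (G.nb (G.nb (G.nb p k) f) (l + 2)) -
              x (G.nb (G.nb (G.nb p k) f) (l + 1))))
            (sg e f * (ξ - x (G.nb (G.nb (G.nb p k) f) (l + 2)))) := by
        rcases lt_or_gt_of_ne hxab with hlt1 | hlt1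
        · rcases sg_cases e f with hsg | hsg
          · obtain ⟨ξ, hξ⟩ := exists_left x S
            refine ⟨ξ, hξ p hst.vS, fun z hz => (hξ z hz).ne', ?_⟩
            rw [hsg]
            exact Or.inl ⟨by linarith [hξ _ ha], by linarith⟩
          · obtain ⟨ξ, h1, h2, h3⟩ := exists_between' x S hlt1
            refine ⟨ξ, lt_of_lt_of_le h2 (hle _ hb), h3, ?_⟩
            rw [hsg]
            exact Or.inr (Or.inr ⟨by linarith, by linarith⟩)
        · rcases sg_cases e f with hsg | hsg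
          · obtain ⟨ξ, h1, h2, h3⟩ := exists_between' x S hlt1
            refine ⟨ξ, lt_of_lt_of_le h2 (hle _ ha), h3, ?_⟩
            rw [hsg]
            exact Or.inr (Or.inr ⟨by linarith, by linarith⟩)
          · obtain ⟨ξ, hξ⟩ := exists_left x S
            refine ⟨ξ, hξ p hst.vS, fun z hz => (hξ z hz).ne', ?_⟩
            rw [hsg]
            exact Or.inr (Or.inl ⟨by linarith, by linarith [hξ _ hb]⟩)
      obtain ⟨x', y', hE, hst'⟩ := hst.place hjk he hu hs0 h10 hξ
        (mul_pos_of_neg_of_neg (by linarith) (by linarith))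
      have hg := hst'.close3 (k := f) hfe.symm (sg_cases e f) (by
        rw [he, hE.ex p hst.vS, hE.xw]
        rw [sg_sq]; linarith) hl (by
        intro i
        by_cases hil : i = l
        · rw [hil, hl]; exact Finset.mem_insert_self _ _
        · exact Finset.mem_insert_of_mem (hall i hil)) (by
        rw [hE.ex _ ha, hE.ex _ hb, hE.xw]; exact hM)
      refine ⟨_, ?_, Or.inl hg⟩
      exact (Finset.ssubset_insert huS).trans_subset (Finset.subset_insert _ _)
    · -- two placed neighbours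
      push Not at hall
      obtain ⟨t, htl, ht⟩ := hall
      have htm : t ≠ m := fun e' => ht (e' ▸ hm)
      obtain ⟨ξ, hξp, hξ, hM⟩ : ∃ ξ, ξ < x p ∧ (∀ z ∈ S, x z ≠ ξ) ∧
          0 < sg l m * sg e f * (x (G.nb (G.nb (G.nb p k) f) m) - ξ) := by
        have hc : sg l m * sg e f = 1 ∨ sg l m * sg e f = -1 := by
          rcases sg_cases l m with h1 | h1 <;> rcases sg_cases e f with h2 | h2 <;>
            rw [h1, h2] <;> norm_num
        rcases hc with hc | hc
        · obtain ⟨ξ, hξ⟩ := exists_left x S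
          refine ⟨ξ, hξ p hst.vS, fun z hz => (hξ z hz).ne', ?_⟩
          rw [hc]; linarith [hξ _ hm]
        · obtain ⟨ξ, h1, h2, h3⟩ := exists_between' x S hax
          refine ⟨ξ, h2, h3, ?_⟩
          rw [hc]; linarith
      obtain ⟨x', y', hE, hst'⟩ := hst.place hjk he hu hs0 h10 hξ
        (mul_pos_of_neg_of_neg (by linarith) (by linarith))
      have hg := hst'.close2 (k := f) hfe.symm (sg_cases e f) (by
        rw [he, hE.ex p hst.vS, hE.xw]
        rw [sg_sq]; linarith) hlm hl (Finset.mem_insert_of_mem hm) (by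
        intro i hil him hi
        have : i = t := third_unique hlm htl htm hil him
        rw [this] at hi
        rcases Finset.mem_insert.1 hi with hi | hi
        · exact absurd (G.inj _ (hi.trans hl.symm)) htl
        · exact ht hi) (by
        rw [hE.ex _ hm, hE.xw]; exact hM)
      refine ⟨_, ?_, Or.inl hg⟩
      exact (Finset.ssubset_insert huS).trans_subset (Finset.subset_insert _ _)

end Pool.Agent.Q230.RS
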