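import Pool.Agent.Q230.RS.Reach

/-!
# Rotation systems of cubic graphs: the extension theorem, second part
-/

set_option autoImplicit false

namespace Pool.Agent.Q230.RS

variable {V : Type*} [DecidableEq V]

/-- **Extension at the third neighbour `u` of `q`**, if `u` has no other placed neighbour. -/
theorem extq {G : Cub V} {S : Finset V} {q u : V} {x y : V → ℝ} (hB : Bs x y S) (hq : q ∈ S)
    {i0 : Fin 3} (hi0 : G.nb q i0 = u) (hq2 : ∀ i, i ≠ i0 → G.nb q i ∈ S) (huS : u ∉ S)
    (hu : ∀ i, G.nb u i ∈ S → G.nb u i = q) (hok : ∀ z ∈ S, z ≠ q → ok G x y S z)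
    {s : ℝ} (hs : s = 1 ∨ s = -1)
    (H : ∀ ξ x' y', Ext x y S u ξ s x' y' → ok G x' y' (insert u S) q) :
    ∃ S', S ⊂ S' ∧ Reach G S' := by
  obtain ⟨e, he⟩ : ∃ e, G.nb u e = q := by rw [← hi0]; exact G.sym q i0
  have hws : ∀ f, f ≠ e → G.nb u f ∉ S := by
    intro f hf hmem
    exact hf (G.inj _ ((hu f hmem).trans he.symm))
  have hwq : ∀ f, f ≠ e → ∀ m, G.nb (G.nb u f) m ∈ S → G.nb (G.nb u f) m ≠ q := by
    intro f hf m hm hmq
    obtain ⟨i, hi⟩ := back (G := G) (G.nb u f) m
    rw [hmq] at hi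
    by_cases hii : i = i0
    · rw [hii, hi0] at hi
      exact G.irr _ _ hi.symm
    · exact hws f hf (by rw [← hi]; exact hq2 i hii)
  by_cases hA : ∃ f, f ≠ e ∧ ∀ i, G.nb (G.nb u f) i ∉ S
  · obtain ⟨f, hfe, hf⟩ := hA
    obtain ⟨ξ, hξ⟩ := exists_right x S
    obtain ⟨x', y', hE⟩ := exists_ext x y S hB u huS ξ (fun z hz => (hξ z hz).ne) s hs
    have hst' := place0 (G := G) hE hs hq he hu hok (H ξ x' y' hE)
    refine ⟨insert u S, Finset.ssubset_insert huS, Or.inr ⟨u, G.nb u f, x', y', e, f, hst', ?_,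
      hfe.symm, rfl, ?_⟩⟩
    · intro z hz hzu
      rcases Finset.mem_insert.1 hz with hz | hz
      · exact absurd hz hzu
      · rw [hE.xw, hE.ex z hz]; exact hξ z hz
    · intro i hi
      rcases Finset.mem_insert.1 hi with hi | hi
      · exact hi
      · exact absurd hi (hf i)
  · push Not at hA
    obtain ⟨f, hfe⟩ : ∃ f, f ≠ e := ⟨e + 1, fn1 e⟩
    obtain ⟨m, hm⟩ := hA f hfe
    have hmq := hwq f hfe m hm
    obtain ⟨l, hl⟩ := back (G := G) u f
    have hlm : l ≠ m := fun e' => huS (by rw [← hl, e']; exact hm)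
    by_cases hall : ∀ i, i ≠ l → G.nb (G.nb u f) i ∈ S
    · have ha := hall (l + 1) (fn1 l)
      have hb := hall (l + 2) (fn2 l)
      have hab : G.nb (G.nb u f) (l + 1) ≠ G.nb (G.nb u f) (l + 2) :=
        fun e' => fn12 l (G.inj _ e')
      have hxab := hB.1 _ ha _ hb hab
      -- abscissa of `u` and sign of `w`
      obtain ⟨ξ, t, hξ, ht, h1, hM⟩ : ∃ ξ t : ℝ, (∀ z ∈ S, x z ≠ ξ) ∧ (t = 1 ∨ t = -1) ∧
          0 < sg e f * t * (x q - ξ) ∧ Maj (t * (x (G.nb (G.nb u f) (l + 1)) - ξ))
            (t * (x (G.nb (G.nb u f) (l + 2)) - x (G.nb (G.nb u f) (l + 1))))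
            (t * (ξ - x (G.nb (G.nb u f) (l + 2)))) := by
        obtain ⟨ξr, hξr⟩ := exists_right x S
        obtain ⟨ξl, hξl⟩ := exists_left x S
        rcases lt_or_gt_of_ne hxab with hlt1 | hlt1
        · -- `t = 1`
          rcases sg_cases e f with hsg | hsg
          · refine ⟨ξl, 1, fun z hz => (hξl z hz).ne', Or.inl rfl, ?_, ?_⟩
            · rw [hsg]; linarith [hξl q hq]
            · exact Or.inl ⟨by linarith [hξl _ ha], by linarith⟩
          · refine ⟨ξr, 1, fun z hz => (hξr z hz).ne, Or.inl rfl, ?_, ?_⟩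
            · rw [hsg]; linarith [hξr q hq]
            · exact Or.inr (Or.inl ⟨by linarith, by linarith [hξr _ hb]⟩)
        · rcases sg_cases e f with hsg | hsg
          · refine ⟨ξr, -1, fun z hz => (hξr z hz).ne, Or.inr rfl, ?_, ?_⟩
            · rw [hsg]; linarith [hξr q hq]
            · exact Or.inl ⟨by linarith [hξr _ ha], by linarith⟩
          · refine ⟨ξl, -1, fun z hz => (hξl z hz).ne', Or.inr rfl, ?_, ?_⟩
            · rw [hsg]; linarith [hξl q hq]
            · exact Or.inr (Or.inl ⟨by linarith, by linarith [hξl _ hb]⟩)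
      obtain ⟨x', y', hE⟩ := exists_ext x y S hB u huS ξ hξ s hs
      have hst' := place0 (G := G) hE hs hq he hu hok (H ξ x' y' hE)
      have hg := hst'.close3 (k := f) hfe.symm ht (by
        rw [he, hE.ex q hq, hE.xw]; exact h1) hl (by
        intro i
        by_cases hil : i = l
        · rw [hil, hl]; exact Finset.mem_insert_self _ _
        · exact Finset.mem_insert_of_mem (hall i hil)) (by
        rw [hE.ex _ ha, hE.ex _ hb, hE.xw]; exact hM)
      exact ⟨_, (Finset.ssubset_insert huS).trans_subset (Finset.subset_insert _ _), Or.inl hg⟩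
    · push Not at hall
      obtain ⟨r, hrl, hr⟩ := hall
      have hrm : r ≠ m := fun e' => hr (e' ▸ hm)
      have hxaq := hB.1 _ hm q hq hmq
      obtain ⟨ξ, t, hξ, ht, h1, h2⟩ : ∃ ξ t : ℝ, (∀ z ∈ S, x z ≠ ξ) ∧ (t = 1 ∨ t = -1) ∧
          0 < sg e f * t * (x q - ξ) ∧ 0 < sg l m * t * (x (G.nb (G.nb u f) m) - ξ) := by
        have hc : sg l m = sg e f ∨ sg l m = - sg e f := by
          rcases sg_cases l m with h1 | h1 <;> rcases sg_cases e f with h2 | h2 <;>
            rw [h1, h2] <;> norm_num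
        rcases hc with hc | hc
        · obtain ⟨ξ, hξ⟩ := exists_left x S
          refine ⟨ξ, sg e f, fun z hz => (hξ z hz).ne', sg_cases e f, ?_, ?_⟩
          · rw [sg_sq]; linarith [hξ q hq]
          · rw [hc, sg_sq]; linarith [hξ _ hm]
        · rcases lt_or_gt_of_ne hxaq with hlt1 | hlt1
          · obtain ⟨ξ, h1, h2, h3⟩ := exists_between' x S hlt1
            refine ⟨ξ, sg e f, h3, sg_cases e f, ?_, ?_⟩
            · rw [sg_sq]; linarith
            · rw [hc, neg_mul, sg_sq]; linarith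
          · obtain ⟨ξ, h1, h2, h3⟩ := exists_between' x S hlt1
            refine ⟨ξ, - sg e f, h3, ?_, ?_, ?_⟩
            · rcases sg_cases e f with h | h <;> rw [h] <;> norm_num
            · rw [mul_neg, sg_sq]; linarith
            · rw [hc, neg_mul_neg, sg_sq]; linarith
      obtain ⟨x', y', hE⟩ := exists_ext x y S hB u huS ξ hξ s hs
      have hst' := place0 (G := G) hE hs hq he hu hok (H ξ x' y' hE)
      have hg := hst'.close2 (k := f) hfe.symm ht (by
        rw [he, hE.ex q hq, hE.xw]; exact h1) hlm hl (Finset.mem_insert_of_mem hm) (by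
        intro i hil him hi
        have : i = r := third_unique hlm hrl hrm hil him
        rw [this] at hi
        rcases Finset.mem_insert.1 hi with hi | hi
        · exact absurd (G.inj _ (hi.trans hl.symm)) hrl
        · exact hr hi) (by
        rw [hE.ex _ hm, hE.xw]; exact h2)
      exact ⟨_, (Finset.ssubset_insert huS).trans_subset (Finset.subset_insert _ _), Or.inl hg⟩

/-- a connected graph: a nonempty closed set of vertices is everything -/
def Conn (G : Cub V) : Prop :=
  ∀ S : Set V, S.Nonempty → (∀ v ∈ S, ∀ i, G.nb v i ∈ S) → S = Set.univ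

/-- **Extension of a placement whose vertices are all safe.** -/
theorem ext1 [Fintype V] {G : Cub V} (hconn : Conn G) {S : Finset V} (hne : S.Nonempty)
    (hS : S ≠ Finset.univ) (h : Good G S) : ∃ S', S ⊂ S' ∧ Reach G S' := by
  obtain ⟨x, y, hB, hok⟩ := h
  obtain ⟨q, hq, i0, hi0⟩ : ∃ q ∈ S, ∃ i, G.nb q i ∉ S := by
    by_contra hcon
    push Not at hcon
    have := hconn (S : Set V) hne (fun v hv i => hcon v hv i)
    exact hS (by rw [← Finset.coe_univ] at this; exact_mod_cast this)
  obtain ⟨e, he⟩ : ∃ e, G.nb (G.nb q i0) e = q := G.sym q i0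
  by_cases hall : ∀ i, G.nb (G.nb q i0) i ∈ S
  · -- three placed neighbours
    obtain ⟨ξ, hξ⟩ := exists_right x S
    have d : ∀ i j : Fin 3, i ≠ j → x (G.nb (G.nb q i0) i) ≠ x (G.nb (G.nb q i0) j) :=
      fun i j hij => hB.1 _ (hall i) _ (hall j) (fun e' => hij (G.inj _ e'))
    obtain ⟨s, hs, hM⟩ := exists_maj (d 0 1 (by decide)) (d 1 2 (by decide)) (d 0 2 (by decide))
    obtain ⟨x', y', hE⟩ := exists_ext x y S hB _ hi0 ξ (fun z hz => (hξ z hz).ne) s hs
    have hw := hE.ok_new3 (G := G) hs 0 hall hM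
    refine ⟨_, Finset.ssubset_insert hi0, Or.inl ⟨x', y', hE.base, fun z hz => ?_⟩⟩
    rcases Finset.mem_insert.1 hz with rfl | hz
    · exact hw
    · exact hE.keep hs hz (hok z hz)
  · push Not at hall
    obtain ⟨r, hr⟩ := hall
    have hre : r ≠ e := fun e' => hr (by rw [e', he]; exact hq)
    by_cases h2 : ∃ m, m ≠ e ∧ G.nb (G.nb q i0) m ∈ S
    · -- two placed neighbours
      obtain ⟨m, hme, hm⟩ := h2
      have hrm : r ≠ m := fun e' => hr (e' ▸ hm)
      obtain ⟨ξ, hξ⟩ := exists_right x S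
      have hne' : x (G.nb (G.nb q i0) m) ≠ x (G.nb (G.nb q i0) e) :=
        hB.1 _ hm _ (by rw [he]; exact hq) (fun e' => hme (G.inj _ e'))
      obtain ⟨s, hs, hsp⟩ : ∃ s : ℝ, (s = 1 ∨ s = -1) ∧
          0 < sg e m * s * (x (G.nb (G.nb q i0) m) - x (G.nb (G.nb q i0) e)) := by
        rcases lt_or_gt_of_ne hne' with hlt | hlt
        · refine ⟨- sg e m, ?_, ?_⟩
          · rcases sg_cases e m with h | h <;> rw [h] <;> norm_num
          · rw [mul_neg, sg_sq]; linarith
        · refine ⟨sg e m, sg_cases e m, ?_⟩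
          rw [sg_sq]; linarith
      obtain ⟨x', y', hE⟩ := exists_ext x y S hB _ hi0 ξ (fun z hz => (hξ z hz).ne) s hs
      have heS : G.nb (G.nb q i0) e ∈ S := by rw [he]; exact hq
      have hw := hE.ok_new2 (G := G) hs hme.symm heS hm (by
        intro i hie him hi
        have : i = r := third_unique hme.symm hre hrm hie him
        exact hr (this ▸ hi)) (mul_pos_of_neg_of_neg (by linarith [hξ _ heS])
          (by linarith [hξ _ hm])) hsp
      refine ⟨_, Finset.ssubset_insert hi0, Or.inl ⟨x', y', hE.base, fun z hz => ?_⟩⟩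
      rcases Finset.mem_insert.1 hz with rfl | hz
      · exact hw
      · exact hE.keep hs hz (hok z hz)
    · -- one placed neighbour
      push Not at h2
      have hu : ∀ i, G.nb (G.nb q i0) i ∈ S → G.nb (G.nb q i0) i = q := by
        intro i hi
        by_cases hie : i = e
        · rw [hie, he]
        · exact absurd hi (h2 i hie)
      refine extq hB hq rfl ?_ hi0 hu (fun z hz _ => hok z hz) (Or.inl rfl : (1 : ℝ) = 1 ∨ _)
        (fun ξ x' y' hE => hE.keep (Or.inl rfl) hq (hok q hq))
      intro i hi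
      rcases hok q hq with ⟨hf, _⟩ | ⟨i', h0, h1, h2', _, _⟩
      · exact absurd (hf i0) hi0
      · have : i0 = i' := by
          by_contra hne1
          rcases fin3_cases (fun e' => hne1 e'.symm : i' ≠ i0) with h | h
          · rw [h] at hi0; exact hi0 h1
          · rw [h] at hi0; exact hi0 h2'
        subst this
        rcases fin3_cases hi.symm with h | h
        · rw [h]; exact h1
        · rw [h]; exact h2'

/-- **The extension theorem.** -/
theorem reach_univ [Fintype V] {G : Cub V} (hconn : Conn G) :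
    ∀ (n : ℕ) (S : Finset V), (Finset.univ \ S).card = n → S.Nonempty → Reach G S →
      Good G Finset.univ := by
  intro n
  induction n using Nat.strong_induction_on with
  | _ n ih =>
    intro S hn hne hR
    have step : (∃ S', S ⊂ S' ∧ Reach G S') → Good G Finset.univ := by
      rintro ⟨S', hSS, hR'⟩
      refine ih _ ?_ S' rfl (hne.mono hSS.1) hR'
      rw [← hn]
      refine Finset.card_lt_card ?_
      refine ⟨Finset.sdiff_subset_sdiff le_rfl hSS.1, fun hcon => hSS.2 ?_⟩
      intro a ha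
      by_contra hna
      exact (Finset.mem_sdiff.1 (hcon (Finset.mem_sdiff.2 ⟨Finset.mem_univ _, hna⟩))).2 ha
    rcases hR with hG | ⟨p, u, hE⟩
    · by_cases hS : S = Finset.univ
      · rw [← hS]; exact hG
      · exact step (ext1 hconn hne hS hG)
    · exact step (ext2 hE)

end Pool.Agent.Q230.RS
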