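import Pool.Agent.Q230.RS.Start

/-!
# Project RS: statements of the second part (components, codes)
-/

set_option autoImplicit false

namespace Pool.Agent.Q230.RS

/-- The cubic graph with rotation system coded by `N`. -/
def cub (N : List (List ℕ)) (hR : IsRotationSystem N) (hC : Cubic N) : Cub (Fin N.length) where
  nb v i := ⟨(nbs N v)[i.val]'(by rw [hC v v.2]; exact i.2), hR.lt v v.2 _ (List.getElem_mem _)⟩
  inj := by
    intro v i j h
    have h1 : (nbs N v)[i.val]'(by rw [hC v v.2]; exact i.2) =
        (nbs N v)[j.val]'(by rw [hC v v.2]; exact j.2) := congrArg Fin.val h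
    exact Fin.ext (((hR.nodup v v.2).getElem_inj_iff).1 h1)
  irr := by
    intro v i h
    have h1 : (nbs N v)[i.val]'(by rw [hC v v.2]; exact i.2) = v.val := congrArg Fin.val h
    have h2 : (nbs N v)[i.val]'(by rw [hC v v.2]; exact i.2) ∈ nbs N v := List.getElem_mem _
    rw [h1] at h2
    exact hR.irr v v.2 h2
  sym := by
    intro v i
    have h1 := hR.symm v v.2 _ (List.getElem_mem (by rw [hC v v.2]; exact i.2 : i.val < (nbs N v).length))
    obtain ⟨j, hj, hjv⟩ := List.getElem_of_mem h1
    have hl : (nbs N v)[i.val]'(by rw [hC v v.2]; exact i.2) < N.length :=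
      hR.lt v v.2 _ (List.getElem_mem _)
    refine ⟨⟨j, by rw [hC _ hl] at hj; exact hj⟩, ?_⟩
    exact Fin.ext hjv

/-- a placement with the prescribed rotations -/
def Draw {V : Type} (G : Cub V) (x y : V → ℝ) : Prop :=
  (∀ u v, u ≠ v → x u = x v → y u ≠ y v) ∧
  (∀ u i z, z ≠ u → z ≠ G.nb u i → ∀ t : ℝ, 0 < t → t < 1 →
    x z = (1 - t) * x u + t * x (G.nb u i) → y z ≠ (1 - t) * y u + t * y (G.nb u i)) ∧
  ∀ u, Rot G x y u

/-- a placement of a set of vertices in general position, with the prescribed rotations -/
def Pl {V : Type} (G : Cub V) (C : Set V) : Prop :=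
  ∃ x y : V → ℝ, (∀ a ∈ C, ∀ b ∈ C, a ≠ b → x a ≠ x b) ∧
    (∀ a ∈ C, ∀ b ∈ C, ∀ c ∈ C, a ≠ b → b ≠ c → a ≠ c → cr x y a b c ≠ 0) ∧
    ∀ u ∈ C, Rot G x y u

/-- the neighbours of `v` and `v` form a component `K₄` -/
def IsK4 {V : Type} (G : Cub V) (v : V) : Prop :=
  ∀ i j, G.nb (G.nb v i) j = v ∨ ∃ k, G.nb (G.nb v i) j = G.nb v k

/-- **RS-DRW.** Drawings of coded graphs are placements.

Proof. `p k = x k + y k * I`, `x k = (p k).re`, `y k = (p k).im` (extended by `0` outside
`Fin N.length`). (a) Distinctness is the same. (b) `openSegment ℝ a b` is the set of the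
`(1 - t) a + t b` with `0 < t < 1` (`openSegment_eq_image`); for `k = i` or `k = j` use that distinct
points are not in the open segment of which they are an end. (c) With `nbs N i = [a, b, c]` the
condition `Realizes` says `ccw A A < ccw A B < ccw A C` for `A = p a - p i` etc.; `ccw A A = 0`.
`crc (p a - p i) (p b - p i) = cr x y i a b`. The cross products of the three directions do not
vanish unless two directions are parallel; two of the directions cannot be positively parallel since
then one of the neighbours of `i` is in the relative interior of an edge; but they can be OPPOSITE.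
So for the direction from `Realizes` to `Rot` the case of a vanishing cross product has to be treated:
if `ccw A B < ccw A C` and `0 < ccw A B` then with `β = ccw A B < γ = ccw A C` in `(0, 2π)`:
`crc A B` has the sign of `sin β`, `crc B C` that of `sin (γ - β)`, `crc C A` that of `- sin γ`; if
`β = π` then `crc B C > 0` and `crc C A > 0`; if `γ = π` then `crc A B > 0`, `crc B C > 0`; if
`γ - β = π` then `crc A B > 0`, `crc C A > 0`; so in all cases two of them are positive. -/
def S_DRW : Prop := ∀ (N : List (List ℕ)) (hR : IsRotationSystem N) (hC : Cubic N),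
  Realizable N ↔ ∃ x y : Fin N.length → ℝ, Draw (cub N hR hC) x y

/-- **RS-KEV.** A component `K₄` of even type has a placement.

Proof. Let `v` be the vertex and sort the four vertices `w 0 < w 1 < w 2 < w 3`. Put `e s = 1` if
`inc (nbs N (w s))` and `-1` otherwise. The number of the `s` with `e s = 1` is even (`EvenK4` at `v`;
the list `v :: nbs N v` is a permutation of `[w 0, w 1, w 2, w 3]`), so that the product of the `e s` is
`1`. Take the placement of `S_KFS` (`x (w s) := x₀ s`, and `0` elsewhere). For each `s` the list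
`nbs N (w s) = [p, q, r]` is a rotation of the increasing list `[t₀, t₁, t₂]` of the other three
vertices if `inc`, and a rotation of `[t₀, t₂, t₁]` otherwise; as `cr` is antisymmetric,
`Maj (cr v p q) (cr v q r) (cr v r p) ↔ Maj (e * cr v t₀ t₁) (e * cr v t₁ t₂) (e * cr v t₂ t₀)`. -/
def S_KEV : Prop := ∀ (N : List (List ℕ)) (hR : IsRotationSystem N) (hC : Cubic N),
  EvenK4 N → ∀ v, IsK4 (cub N hR hC) v →
    Pl (cub N hR hC) {u | u = v ∨ ∃ k, (cub N hR hC).nb v k = u}

/-- **RS-KOD.** A placement exists only if all components `K₄` are of even type.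

Proof. As for `S_KEV` (same sorted vertices, same signs `e s`), with `S_KFN` without the hypothesis
`Bs` (the proof of `kfn` in `Pool/Agent/Q47/RS/K4.lean` does not use it). The condition `EvenK4` at
`i < N.length` is the condition `IsK4 (cub N hR hC) ⟨i, _⟩`. -/
def S_KOD : Prop := ∀ (N : List (List ℕ)) (hR : IsRotationSystem N) (hC : Cubic N)
  (x y : Fin N.length → ℝ), (∀ u, Rot (cub N hR hC) x y u) → EvenK4 N

end Pool.Agent.Q230.RS
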