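import Pool.Agent.Q230.RS.Quad

/-!
# Rotation systems of cubic graphs: the start

Every connected cubic graph other than `K₄` has a placement all of whose vertices have the
prescribed rotation.
-/

set_option autoImplicit false

namespace Pool.Agent.Q230.RS

variable {V : Type} [DecidableEq V]

/-- adjacency -/
def Adj (G : Cub V) (u v : V) : Prop := ∃ l, G.nb u l = v

omit [DecidableEq V] in
theorem Adj.symm {G : Cub V} {u v : V} (h : Adj G u v) : Adj G v u := by
  obtain ⟨l, rfl⟩ := h
  exact G.sym u l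

omit [DecidableEq V] in
theorem Adj.ne {G : Cub V} {u v : V} (h : Adj G u v) : u ≠ v := by
  rintro rfl
  obtain ⟨l, hl⟩ := h
  exact G.irr _ _ hl

omit [DecidableEq V] in
/-- no vertex has four neighbours -/
theorem four {G : Cub V} {u : V} {a b c d : V} (ha : Adj G u a) (hb : Adj G u b) (hc : Adj G u c)
    (hd : Adj G u d) (hab : a ≠ b) (hac : a ≠ c) (had : a ≠ d) (hbc : b ≠ c) (hbd : b ≠ d)
    (hcd : c ≠ d) : False := by
  obtain ⟨i, hi⟩ := ha
  obtain ⟨j, hj⟩ := hb
  obtain ⟨k, hk⟩ := hc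
  obtain ⟨l, hl⟩ := hd
  have h1 : i ≠ j := fun e => hab (by rw [← hi, ← hj, e])
  have h2 : k ≠ i := fun e => hac (by rw [← hi, ← hk, e])
  have h3 : k ≠ j := fun e => hbc (by rw [← hj, ← hk, e])
  have h4 : l ≠ i := fun e => had (by rw [← hi, ← hl, e])
  have h5 : l ≠ j := fun e => hbd (by rw [← hj, ← hl, e])
  have := third_unique h1 h2 h3 h4 h5
  exact hcd (by rw [← hk, ← hl, this])

omit [DecidableEq V] in
theorem notri {G : Cub V} {k : ℕ} {c : ℕ → V} (h : MinCyc G k c) (hk : 4 ≤ k) {a b d : V}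
    (hab : Adj G a b) (hbd : Adj G b d) (hda : Adj G d a) : False := by
  have hc : IsCyc G 3 (fun i => if i = 0 then a else if i = 1 then b else d) := by
    refine ⟨le_rfl, ?_, ?_, ?_⟩
    · intro i hi j hj hij
      interval_cases i <;> interval_cases j <;> simp at hij <;> first
        | rfl
        | exact absurd hij hab.ne
        | exact absurd hij.symm hab.ne
        | exact absurd hij hbd.ne
        | exact absurd hij.symm hbd.ne
        | exact absurd hij hda.ne
        | exact absurd hij.symm hda.ne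
    · intro i hi
      have : i = 0 ∨ i = 1 := by omega
      rcases this with rfl | rfl
      · simpa [Adj] using hab
      · simpa [Adj] using hbd
    · simpa [Adj] using hda
  have := h.2 3 _ hc
  omega

theorem start_even (hI : S_INS) {G : Cub V} {k : ℕ} {c : ℕ → V} (h : MinCyc G k c)
    (hk : 4 ≤ k) (hev : Even k)
    (hind : ∀ i j, i < j → j < k → (∃ l, G.nb (c i) l = c j) → j = i + 1 ∨ (i = 0 ∧ j = k - 1))
    (hF5 : ∀ v a, v ≠ a → (∀ i < k, c i ≠ v) → (∀ i < k, c i ≠ a) → (∃ l, G.nb v l = c 0) →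
      (∃ l, G.nb v l = a) → ∀ m < k, (∃ l, G.nb a l = c m) → k ≤ m + 3 ∧ m ≤ 3)
    (hno : ∀ z, (∀ i < k, c i ≠ z) → ∀ i j, i < j → j < k → (∃ l, G.nb z l = c i) →
      (∃ l, G.nb z l = c j) → False) :
    ∃ S' : Finset V, S'.Nonempty ∧ Reach G S' := by
  have hc := h.1
  obtain ⟨x, y, hB, hok, hx, -⟩ := cyc_place hc hk hind
  obtain ⟨hx1, hxk⟩ := hx hev
  have hC : ∀ z, z ∈ P c (k - 1) ↔ ∃ i < k, c i = z := by
    intro z
    rw [mem_P]
    constructor
    · rintro ⟨i, hi, h⟩; exact ⟨i, by omega, h⟩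
    · rintro ⟨i, hi, h⟩; exact ⟨i, by omega, h⟩
  have hne : ∀ a b, a < k → b < k → a ≠ b → c a ≠ c b :=
    fun a b ha hb hab e' => hab (hc.inj a ha b hb e')
  obtain ⟨j0, hj0⟩ := hc.adj 0 (by omega)
  obtain ⟨k0, hk0⟩ : ∃ l, G.nb (c 0) l = c (k - 1) := by
    obtain ⟨l, hl⟩ := hc.cl
    have := G.sym (c (k - 1)) l
    rwa [hl] at this
  have hj0' : G.nb (c 0) j0 = c 1 := hj0
  have hjk0 : j0 ≠ k0 := by
    intro e
    rw [← e, hj0'] at hk0
    exact hne 1 (k - 1) (by omega) (by omega) (by omega) hk0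
  obtain ⟨i0, hij, hik⟩ := exists_third j0 k0
  -- all neighbours of `c 0` on the cycle
  have h0C : c 0 ∈ P c (k - 1) := (hC _).2 ⟨0, by omega, rfl⟩
  have hnbC : ∀ i, i ≠ i0 → G.nb (c 0) i ∈ P c (k - 1) ∧ x (c 0) < x (G.nb (c 0) i) := by
    intro i hi
    have : i = j0 ∨ i = k0 := by
      by_contra hcon
      push Not at hcon
      exact hi (third_unique hjk0 hij hik hcon.1 hcon.2)
    rcases this with rfl | rfl
    · rw [hj0']; exact ⟨(hC _).2 ⟨1, by omega, rfl⟩, hx1⟩
    · rw [hk0]; exact ⟨(hC _).2 ⟨k - 1, by omega, rfl⟩, hxk⟩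
  have hvC : G.nb (c 0) i0 ∉ P c (k - 1) := by
    intro hmem
    obtain ⟨t, ht, htv⟩ := (hC _).1 hmem
    have ht0 : t ≠ 0 := fun e => G.irr _ _ (by rw [← htv, e])
    rcases hind 0 t (by omega) ht ⟨i0, htv.symm⟩ with h1 | h1
    · rw [h1] at htv
      exact hij (G.inj _ (htv.symm.trans hj0'.symm))
    · rw [h1.2] at htv
      exact hik (G.inj _ (htv.symm.trans hk0.symm))
  set v := G.nb (c 0) i0 with hv
  have ha := hnbC (i0 + 1) (fn1 i0)
  have hb := hnbC (i0 + 2) (fn2 i0)
  have hab : G.nb (c 0) (i0 + 1) ≠ G.nb (c 0) (i0 + 2) := fun e => fn12 i0 (G.inj _ e)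
  have hcr : cr x y (c 0) (G.nb (c 0) (i0 + 1)) (G.nb (c 0) (i0 + 2)) ≠ 0 :=
    hB.2 _ h0C _ ha.1 _ hb.1 (G.irr _ _).symm hab (G.irr _ _).symm
  rcases lt_or_gt_of_ne hcr with hneg | hpos
  swap
  · -- all safe
    refine ⟨P c (k - 1), ⟨_, h0C⟩, Or.inl ⟨x, y, hB, fun z hz => ?_⟩⟩
    by_cases hz0 : z = c 0
    · rw [hz0]
      refine Or.inr ⟨i0, hvC, ha.1, hb.1, mul_pos ?_ ?_, hpos⟩
      · linarith [ha.2]
      · linarith [hb.2]
    · exact hok z hz hz0
  · -- insert the third neighbour of `c 0`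
    obtain ⟨e, he⟩ : ∃ e, G.nb v e = c 0 := G.sym (c 0) i0
    have hvC' : ∀ i < k, c i ≠ v := fun i hi hci => hvC ((hC _).2 ⟨i, hi, hci⟩)
    have hNv : ∀ i, i ≠ e → G.nb v i ∉ P c (k - 1) := by
      intro i hi hmem
      obtain ⟨t, ht, htv⟩ := (hC _).1 hmem
      have ht0 : t ≠ 0 := by
        intro e'
        rw [e'] at htv
        exact hi (G.inj _ (htv.symm.trans he.symm))
      exact hno v hvC' 0 t (by omega) ht ⟨e, he⟩ ⟨i, htv.symm⟩
    have hins : ∀ ξ, x (c 0) < ξ → (∀ z ∈ P c (k - 1), x z ≠ ξ) →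
        ∃ x' y', (∀ z ∈ P c (k - 1), x' z = x z) ∧ x' v = ξ ∧
          St1 G x' y' (insert v (P c (k - 1))) v e := by
      intro ξ h1 h2
      obtain ⟨x', y', hx', hy', hxv, hB', c1, c2⟩ := hI V x y (P c (k - 1)) (c 0)
        (G.nb (c 0) (i0 + 1)) (G.nb (c 0) (i0 + 2)) v ξ hB h0C ha.1 hb.1 hvC hab ha.2 hb.2 h1 h2
        hneg
      refine ⟨x', y', hx', hxv, hB', Finset.mem_insert_self _ _, ?_, ?_, ?_⟩
      · rw [he]; exact Finset.mem_insert_of_mem h0C
      · intro i hi hmem
        rcases Finset.mem_insert.1 hmem with hmem | hmem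
        · exact G.irr _ _ hmem
        · exact hNv i hi hmem
      · intro z hz hzv
        rcases Finset.mem_insert.1 hz with hz | hz
        · exact absurd hz hzv
        · by_cases hz0 : z = c 0
          · rw [hz0]
            refine Or.inl ⟨?_, ?_⟩
            · intro i
              by_cases hi : i = i0
              · rw [hi]; exact Finset.mem_insert_self _ _
              · exact Finset.mem_insert_of_mem (hnbC i hi).1
            · rw [Rot_iff G x' y' (c 0) i0]
              exact Or.inr (Or.inr ⟨c1, c2⟩)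
          · refine ok_insert_of_nadj ?_ (ok_congr hz hx' hy' (hok z hz hz0))
            intro i hi
            obtain ⟨t, ht⟩ := G.sym z i
            rw [hi] at ht
            by_cases hte : t = e
            · rw [hte, he] at ht
              exact hz0 ht.symm
            · exact hNv t hte (by rw [ht]; exact hz)
    by_cases hA : ∃ f, f ≠ e ∧ ∀ i, G.nb (G.nb v f) i ∉ P c (k - 1)
    · obtain ⟨f, hfe, hf⟩ := hA
      obtain ⟨ξ, hξ⟩ := exists_right x (P c (k - 1))
      obtain ⟨x', y', hx', hxv, hst⟩ := hins ξ (hξ _ h0C) (fun z hz => (hξ z hz).ne)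
      refine ⟨insert v (P c (k - 1)), ⟨v, Finset.mem_insert_self _ _⟩, Or.inr ⟨v, G.nb v f,
        x', y', e, f, hst, ?_, hfe.symm, rfl, ?_⟩⟩
      · intro z hz hzv
        rcases Finset.mem_insert.1 hz with hz | hz
        · exact absurd hz hzv
        · rw [hxv, hx' z hz]; exact hξ z hz
      · intro i hi
        rcases Finset.mem_insert.1 hi with hi | hi
        · exact hi
        · exact absurd hi (hf i)
    · push Not at hA
      -- both other neighbours of `v` have neighbours on the cycle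
      have hex : ∀ f, f ≠ e → ∃ m t, G.nb (G.nb v f) m = c t ∧ 1 ≤ t ∧ t < k ∧ k ≤ t + 3 ∧
          t ≤ 3 := by
        intro f hf
        obtain ⟨m, hm⟩ := hA f hf
        obtain ⟨t, ht, htm⟩ := (hC _).1 hm
        have hfC : ∀ i < k, c i ≠ G.nb v f := fun i hi hci => hNv f hf ((hC _).2 ⟨i, hi, hci⟩)
        obtain ⟨q1, q2⟩ := hF5 v (G.nb v f) (G.irr _ _).symm hvC' hfC ⟨e, he⟩ ⟨f, rfl⟩ t ht
          ⟨m, htm.symm⟩
        exact ⟨m, t, htm.symm, by omega, ht, q1, q2⟩
      obtain ⟨m1, t1, ht1, p1, q1, r1, s1⟩ := hex (e + 1) (fn1 e)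
      obtain ⟨m2, t2, ht2, p2, q2, r2, s2⟩ := hex (e + 2) (fn2 e)
      have ht12 : t1 ≠ t2 := by
        intro e12
        have hadj : ∀ t, 1 ≤ t → t < k → ∃ z1 z2, z1 ≠ z2 ∧ Adj G (c t) z1 ∧ Adj G (c t) z2 ∧
            z1 ∈ P c (k - 1) ∧ z2 ∈ P c (k - 1) := by
          intro t h1 h2
          have hpred : Adj G (c t) (c (t - 1)) := by
            obtain ⟨l, hl⟩ := hc.adj (t - 1) (by omega)
            have e1 : t - 1 + 1 = t := by omega
            rw [e1] at hl
            exact Adj.symm ⟨l, hl⟩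
          by_cases htk : t + 1 < k
          · exact ⟨c (t - 1), c (t + 1), hne _ _ (by omega) (by omega) (by omega), hpred,
              hc.adj t htk, (hC _).2 ⟨_, by omega, rfl⟩, (hC _).2 ⟨_, by omega, rfl⟩⟩
          · have htk' : t = k - 1 := by omega
            refine ⟨c (t - 1), c 0, hne _ _ (by omega) (by omega) (by omega), hpred, ?_,
              (hC _).2 ⟨_, by omega, rfl⟩, (hC _).2 ⟨_, by omega, rfl⟩⟩
            rw [htk']; exact hc.cl
        obtain ⟨z1, z2, hz12, hz1, hz2, hz1C, hz2C⟩ := hadj t1 p1 q1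
        have a1 : Adj G (c t1) (G.nb v (e + 1)) := Adj.symm ⟨m1, ht1⟩
        have a2 : Adj G (c t1) (G.nb v (e + 2)) := by
          rw [e12]; exact Adj.symm ⟨m2, ht2⟩
        refine four hz1 hz2 a1 a2 hz12 ?_ ?_ ?_ ?_ ?_
        · intro e'; exact hNv _ (fn1 e) (e' ▸ hz1C)
        · intro e'; exact hNv _ (fn2 e) (e' ▸ hz1C)
        · intro e'; exact hNv _ (fn1 e) (e' ▸ hz2C)
        · intro e'; exact hNv _ (fn2 e) (e' ▸ hz2C)
        · intro e'; exact fn12 e (G.inj _ e')
      have hk4 : k = 4 := by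
        obtain ⟨r, hr⟩ := hev
        omega
      obtain ⟨f, hfe, m, t, htm, ht⟩ : ∃ f, f ≠ e ∧ ∃ m t, G.nb (G.nb v f) m = c t ∧
          (t = 1 ∨ t = 3) := by
        by_cases h1 : t1 = 1 ∨ t1 = 3
        · exact ⟨e + 1, fn1 e, m1, t1, ht1, h1⟩
        · exact ⟨e + 2, fn2 e, m2, t2, ht2, by omega⟩
      have htk : t < k := by omega
      have htC : c t ∈ P c (k - 1) := (hC _).2 ⟨t, htk, rfl⟩
      have hxt : x (c 0) < x (c t) := by
        rcases ht with rfl | rfl
        · exact hx1
        · have : (3 : ℕ) = k - 1 := by omega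
          rw [this]; exact hxk
      obtain ⟨l, hl⟩ := back (G := G) v f
      have hlm : l ≠ m := by
        intro e'
        rw [← e', hl] at htm
        exact hvC' t htk htm.symm
      have hfC : ∀ i < k, c i ≠ G.nb v f := fun i hi hci => hNv f hfe ((hC _).2 ⟨i, hi, hci⟩)
      have hs0 : - sg e f = 1 ∨ - sg e f = -1 := by
        rcases sg_cases e f with h | h <;> rw [h] <;> norm_num
      obtain ⟨ξ, h1, h2, h3⟩ : ∃ ξ, x (c 0) < ξ ∧ (∀ z ∈ P c (k - 1), x z ≠ ξ) ∧
          0 < sg l m * (- sg e f) * (x (c t) - ξ) := by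
        have hcc : sg l m * (- sg e f) = 1 ∨ sg l m * (- sg e f) = -1 := by
          rcases sg_cases l m with h1 | h1 <;> rcases sg_cases e f with h2 | h2 <;>
            rw [h1, h2] <;> norm_num
        rcases hcc with hcc | hcc
        · obtain ⟨ξ, b1, b2, b3⟩ := exists_between' x (P c (k - 1)) hxt
          exact ⟨ξ, b1, b3, by rw [hcc]; linarith⟩
        · obtain ⟨ξ, hξ⟩ := exists_right x (P c (k - 1))
          exact ⟨ξ, hξ _ h0C, fun z hz => (hξ z hz).ne, by rw [hcc]; linarith [hξ _ htC]⟩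
      obtain ⟨x', y', hx', hxv, hst⟩ := hins ξ h1 h2
      have hg := hst.close2 (k := f) hfe.symm hs0 (by
        rw [he, hx' _ h0C, hxv]
        have e1 : sg e f * (- sg e f) * (x (c 0) - ξ) = (sg e f * sg e f) * (ξ - x (c 0)) := by
          ring
        rw [e1, sg_sq]; linarith) hlm hl
        (by rw [htm]; exact Finset.mem_insert_of_mem htC) (by
        intro i hil him hi
        rcases Finset.mem_insert.1 hi with hi | hi
        · exact hil (G.inj _ (hi.trans hl.symm))
        · obtain ⟨t', ht', hti⟩ := (hC _).1 hi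
          have htt : t' ≠ t := by
            intro e'
            rw [e'] at hti
            exact him (G.inj _ (hti.symm.trans htm.symm))
          rcases lt_or_gt_of_ne htt with hlt | hlt
          · exact hno _ hfC t' t hlt htk ⟨i, hti.symm⟩ ⟨m, htm⟩
          · exact hno _ hfC t t' hlt ht' ⟨m, htm⟩ ⟨i, hti.symm⟩) (by
        rw [htm, hx' _ htC, hxv]; exact h3)
      exact ⟨_, ⟨v, Finset.mem_insert_of_mem (Finset.mem_insert_self _ _)⟩, Or.inl hg⟩

/-- **The start.** -/
theorem start (hI : S_INS) (hX : S_CYX) {G : Cub V} (hK : NoK4 G) {k : ℕ} {c : ℕ → V}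
    (h : MinCyc G k c) : ∃ S' : Finset V, S'.Nonempty ∧ Reach G S' := by
  have hc := h.1
  obtain ⟨hind, hF4, hF5⟩ := hX V G k c h
  by_cases hk : k = 3
  · subst hk
    exact start_tri hK (hc.adj 0 (by omega)) (hc.adj 1 (by omega)) hc.cl
  have hk4 : 4 ≤ k := by have := hc.k3; omega
  have hne : ∀ a b, a < k → b < k → a ≠ b → c a ≠ c b :=
    fun a b ha hb hab e' => hab (hc.inj a ha b hb e')
  have hC : ∀ z, z ∈ P c (k - 1) ↔ ∃ i < k, c i = z := by
    intro z
    rw [mem_P]
    constructor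
    · rintro ⟨i, hi, h⟩; exact ⟨i, by omega, h⟩
    · rintro ⟨i, hi, h⟩; exact ⟨i, by omega, h⟩
  by_cases hev : Even k
  · by_cases hno : ∃ z, (∀ i < k, c i ≠ z) ∧ ∃ i j, i < j ∧ j < k ∧ Adj G z (c i) ∧ Adj G z (c j)
    · obtain ⟨z, hz, i, j, hij, hjk, hzi, hzj⟩ := hno
      obtain ⟨p1, p2⟩ := hF4 z hz i j hij hjk hzi hzj
      have hk4' : k = 4 := by omega
      have hj : j = i + 2 := by omega
      subst hk4'
      subst hj
      -- the two other vertices of the cycle
      have key : ∀ m0 m1 : V, m0 ≠ m1 → z ≠ m0 → z ≠ m1 → Adj G m0 (c i) →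
          Adj G m0 (c (i + 2)) → Adj G m1 (c i) → Adj G m1 (c (i + 2)) →
          ∃ S' : Finset V, S'.Nonempty ∧ Reach G S' := by
        intro m0 m1 h01 hz0 hz1 g1 g2 g3 g4
        let m : Fin 3 → V := ![m0, m1, z]
        have hm : Function.Injective m := by
          intro s t hst
          fin_cases s <;> fin_cases t <;> simp [m] at hst <;> first
            | rfl
            | exact absurd hst h01
            | exact absurd hst.symm h01
            | exact absurd hst hz0
            | exact absurd hst.symm hz0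
            | exact absurd hst hz1
            | exact absurd hst.symm hz1
        have hma : ∀ s, ∃ t, G.nb (m s) t = c i := by
          intro s
          fin_cases s
          · exact g1
          · exact g3
          · exact hzi
        have hmb : ∀ s, ∃ t, G.nb (m s) t = c (i + 2) := by
          intro s
          fin_cases s
          · exact g2
          · exact g4
          · exact hzj
        choose a ha using hma
        choose b hb using hmb
        refine start_K23 hm (hne i (i + 2) (by omega) (by omega) (by omega)) a b ha hb ?_ ?_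
        · intro t ht
          rcases hind i (i + 2) (by omega) (by omega) ⟨t, ht⟩ with h | h <;> omega
        · intro s t u hu
          by_cases hst : m s = m t
          · rw [hst] at hu; exact G.irr _ _ hu
          · exact notri h hk4 (a := m s) (b := m t) (d := c i) ⟨u, hu⟩ ⟨a t, ha t⟩
              (Adj.symm ⟨a s, ha s⟩)
      have hi : i = 0 ∨ i = 1 := by omega
      rcases hi with rfl | rfl
      · refine key (c 1) (c 3) (hne 1 3 (by omega) (by omega) (by omega))
          (fun e => hz 1 (by omega) e.symm) (fun e => hz 3 (by omega) e.symm) ?_ ?_ ?_ ?_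
        · exact Adj.symm (hc.adj 0 (by omega))
        · exact hc.adj 1 (by omega)
        · exact hc.cl
        · exact Adj.symm (hc.adj 2 (by omega))
      · refine key (c 0) (c 2) (hne 0 2 (by omega) (by omega) (by omega))
          (fun e => hz 0 (by omega) e.symm) (fun e => hz 2 (by omega) e.symm) ?_ ?_ ?_ ?_
        · exact hc.adj 0 (by omega)
        · exact Adj.symm hc.cl
        · exact Adj.symm (hc.adj 1 (by omega))
        · exact hc.adj 2 (by omega)
    · push Not at hno
      refine start_even hI h hk4 hev hind (hF5 hk4) ?_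
      intro z hz i j hij hjk h1 h2
      exact hno z hz i j hij hjk h1 h2
  · -- odd length at least five
    obtain ⟨x, y, hB, hok, -, hx⟩ := cyc_place hc hk4 hind
    obtain ⟨hx1, hxk⟩ := hx hev
    have hk5 : 5 ≤ k := by
      by_contra hcon
      have : k = 4 := by omega
      exact hev (by rw [this]; decide)
    obtain ⟨j0, hj0⟩ := hc.adj 0 (by omega)
    obtain ⟨k0, hk0⟩ : ∃ l, G.nb (c 0) l = c (k - 1) := by
      obtain ⟨l, hl⟩ := hc.cl
      have := G.sym (c (k - 1)) l
      rwa [hl] at this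
    have hj0' : G.nb (c 0) j0 = c 1 := hj0
    have hjk0 : j0 ≠ k0 := by
      intro e
      rw [← e, hj0'] at hk0
      exact hne 1 (k - 1) (by omega) (by omega) (by omega) hk0
    obtain ⟨i0, hij, hik⟩ := exists_third j0 k0
    have h0C : c 0 ∈ P c (k - 1) := (hC _).2 ⟨0, by omega, rfl⟩
    have hvC : ∀ i, i ≠ j0 → i ≠ k0 → G.nb (c 0) i ∉ P c (k - 1) := by
      intro i h1 h2 hmem
      obtain ⟨t, ht, htv⟩ := (hC _).1 hmem
      have ht0 : t ≠ 0 := fun e => G.irr _ _ (by rw [← htv, e])
      rcases hind 0 t (by omega) ht ⟨i, htv.symm⟩ with h3 | h3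
      · rw [h3] at htv
        exact h1 (G.inj _ (htv.symm.trans hj0'.symm))
      · rw [h3.2] at htv
        exact h2 (G.inj _ (htv.symm.trans hk0.symm))
    have hst : St3 G (P c (k - 1)) (c 0) := by
      refine ⟨x, y, j0, k0, hB, h0C, hjk0, ?_, ?_, hvC, ?_, ?_, hok⟩
      · rw [hj0']; exact (hC _).2 ⟨1, by omega, rfl⟩
      · rw [hk0]; exact (hC _).2 ⟨k - 1, by omega, rfl⟩
      · rw [hj0']; exact hx1
      · rw [hk0]; exact hxk
    obtain ⟨S', h1, h2⟩ := st3_fin hst (hvC i0 hij hik) (by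
      intro l hl
      obtain ⟨t, ht, htv⟩ := (hC _).1 hl
      by_cases ht0 : t = 0
      · rw [← htv, ht0]
      · exfalso
        have hvC' : ∀ i < k, c i ≠ G.nb (c 0) i0 :=
          fun i hi hci => hvC i0 hij hik ((hC _).2 ⟨i, hi, hci⟩)
        have := hF4 _ hvC' 0 t (by omega) ht (G.sym (c 0) i0) ⟨l, htv.symm⟩
        omega)
    exact ⟨S', ⟨c 0, h1.1 h0C⟩, h2⟩

/-- **Every connected cubic graph other than `K₄` is realizable with every rotation system.** -/
theorem good_univ (hI : S_INS) (hC : S_CYC) (hX : S_CYX) [Fintype V] [Nonempty V] (G : Cub V)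
    (hK : NoK4 G) (hconn : Conn G) : Good G Finset.univ := by
  obtain ⟨k, c, h⟩ := hC V G
  obtain ⟨S, h1, h2⟩ := start hI hX hK h
  exact reach_univ hconn _ S rfl h1 h2

end Pool.Agent.Q230.RS
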