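import Pool.Agent.Q230.RS.Core

/-!
# Rotation systems of cubic graphs: adding one vertex
-/

set_option autoImplicit false

namespace Pool.Agent.Q230.RS

variable {V : Type*} [DecidableEq V] {G : Cub V} {x y x' y' : V → ℝ} {S : Finset V} {w : V}
  {ξ s : ℝ}

omit [DecidableEq V] in
theorem ok_of {u : V} {j k : Fin 3} (hjk : j ≠ k) (hj : G.nb u j ∈ S) (hk : G.nb u k ∈ S)
    (h3 : ∀ i, i ≠ j → i ≠ k → G.nb u i ∉ S)
    (side : 0 < (x (G.nb u j) - x u) * (x (G.nb u k) - x u))
    (hc : 0 < sg j k * cr x y u (G.nb u j) (G.nb u k)) : ok G x y S u := by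
  right
  rcases fin3_cases hjk with rfl | rfl
  · refine ⟨j + 2, h3 _ (fn2 j) (fn12 j).symm, ?_⟩
    rw [f21, f22]
    rw [sg_one, one_mul] at hc
    exact ⟨hj, hk, side, hc⟩
  · refine ⟨j + 1, h3 _ (fn1 j) (fn12 j), ?_⟩
    rw [f11, f12]
    rw [sg_two] at hc
    refine ⟨hk, hj, by linarith [mul_comm (x (G.nb u j) - x u) (x (G.nb u (j + 2)) - x u)], ?_⟩
    rw [cr_swap]; linarith

omit [DecidableEq V] in
/-- being safe only depends on the placement of `S` -/
theorem ok_congr {u : V} (hu : u ∈ S) (hx : ∀ a ∈ S, x' a = x a) (hy : ∀ a ∈ S, y' a = y a)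
    (h : ok G x y S u) : ok G x' y' S u := by
  rcases h with ⟨hf, hr⟩ | ⟨i, h0, h1, h2, h3, h4⟩
  · left
    refine ⟨hf, ?_⟩
    unfold Rot at hr ⊢
    rwa [cr_congr (hx u hu) (hx _ (hf 0)) (hx _ (hf 1)) (hy u hu) (hy _ (hf 0)) (hy _ (hf 1)),
      cr_congr (hx u hu) (hx _ (hf 1)) (hx _ (hf 2)) (hy u hu) (hy _ (hf 1)) (hy _ (hf 2)),
      cr_congr (hx u hu) (hx _ (hf 2)) (hx _ (hf 0)) (hy u hu) (hy _ (hf 2)) (hy _ (hf 0))]
  · right
    refine ⟨i, h0, h1, h2, ?_, ?_⟩
    · rwa [hx u hu, hx _ h1, hx _ h2]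
    · rwa [cr_congr (hx u hu) (hx _ h1) (hx _ h2) (hy u hu) (hy _ h1) (hy _ h2)]

/-- a safe vertex without new neighbour stays safe -/
theorem ok_insert_of_nadj {u : V} (hw : ∀ i, G.nb u i ≠ w) (h : ok G x y S u) :
    ok G x y (insert w S) u := by
  rcases h with ⟨hf, hr⟩ | ⟨i, h0, h1, h2, h3, h4⟩
  · exact Or.inl ⟨fun i => Finset.mem_insert_of_mem (hf i), hr⟩
  · refine Or.inr ⟨i, ?_, Finset.mem_insert_of_mem h1, Finset.mem_insert_of_mem h2, h3, h4⟩
    intro h
    rcases Finset.mem_insert.1 h with h | h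
    · exact hw i h
    · exact h0 h

/-- safe vertices stay safe -/
theorem Ext.keep (h : Ext x y S w ξ s x' y') (hs : s = 1 ∨ s = -1) {u : V} (hu : u ∈ S)
    (ho : ok G x y S u) : ok G x' y' (insert w S) u := by
  by_cases hadj : ∀ i, G.nb u i ≠ w
  · exact ok_insert_of_nadj hadj (ok_congr hu h.ex h.ey ho)
  · push Not at hadj
    obtain ⟨i, hi⟩ := hadj
    rcases ho with ⟨hf, hr⟩ | ⟨i', h0, h1, h2, h3, h4⟩
    · exact absurd (hf i) (hi ▸ h.nS)
    · have hii : i = i' := by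
        by_contra hne
        have hc : i = i' + 1 ∨ i = i' + 2 := fin3_cases (fun e => hne e.symm)
        rcases hc with rfl | rfl
        · exact h.nS (hi ▸ h1)
        · exact h.nS (hi ▸ h2)
      subst hii
      left
      have h01 : ∀ k, G.nb u k ∈ insert w S := by
        intro k
        by_cases hk : k = i
        · rw [hk, hi]; exact Finset.mem_insert_self _ _
        · rcases fin3_cases (fun e => hk e.symm) with rfl | rfl
          · exact Finset.mem_insert_of_mem h1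
          · exact Finset.mem_insert_of_mem h2
      refine ⟨h01, ?_⟩
      rw [Rot_iff G x' y' u i, hi]
      have hm : 0 < cr x' y' u (G.nb u (i + 1)) (G.nb u (i + 2)) := by
        rw [h.crS hu h1 h2]; exact h4
      have c1 : cr x' y' u w (G.nb u (i + 1)) = cr x' y' (G.nb u (i + 1)) u w := by
        unfold cr; ring
      rw [c1]
      -- one of the two has the right sign
      by_cases hq : 0 < s * (x (G.nb u (i + 2)) - x u)
      · have := h.sign hu h2 hq hs
        exact Or.inr (Or.inl ⟨hm, this⟩)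
      · have : 0 < s * (x u - x (G.nb u (i + 1))) := by
          rcases hs with rfl | rfl
          · by_contra hcon
            have a1 : x (G.nb u (i + 2)) - x u ≤ 0 := by linarith
            have a2 : 0 ≤ x (G.nb u (i + 1)) - x u := by linarith
            nlinarith
          · by_contra hcon
            have a1 : 0 ≤ x (G.nb u (i + 2)) - x u := by linarith
            have a2 : x (G.nb u (i + 1)) - x u ≤ 0 := by linarith
            nlinarith
        have := h.sign h1 hu this hs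
        exact Or.inl ⟨this, hm⟩

/-- an end becomes safe -/
theorem Ext.ok_end (h : Ext x y S w ξ s x' y') (hs : s = 1 ∨ s = -1) {p : V} (hp : p ∈ S)
    {j k : Fin 3} (hjk : j ≠ k) (hj : G.nb p j ∈ S) (hk : G.nb p k = w)
    (h3 : ∀ i, i ≠ j → G.nb p i ∉ S)
    (side : 0 < (x (G.nb p j) - x p) * (ξ - x p))
    (hc : 0 < sg j k * s * (x (G.nb p j) - x p)) : ok G x' y' (insert w S) p := by
  refine ok_of hjk (Finset.mem_insert_of_mem hj) (hk ▸ Finset.mem_insert_self _ _) ?_ ?_ ?_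
  · intro i hij hik hi
    rcases Finset.mem_insert.1 hi with hi | hi
    · exact hik (G.inj p (hi.trans hk.symm))
    · exact h3 i hij hi
  · rw [h.ex _ hj, hk, h.xw, h.ex _ hp]; exact side
  · rw [hk]
    rcases sg_cases j k with e | e <;> rw [e] at hc ⊢
    · rw [one_mul]
      exact h.sign hp hj (by linarith) hs
    · have := h.sign_neg hp hj (by linarith) hs
      linarith

/-- a vertex between its two placed neighbours forces the sign of its third neighbour -/
theorem Ext.ok_forced (h : Ext x y S w ξ s x' y') (hs : s = 1 ∨ s = -1) {m : V} (hm : m ∈ S)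
    {j k : Fin 3} (hjk : j ≠ k) (hj : G.nb m j ∈ S) (hk : G.nb m k ∈ S)
    (h3 : ∀ i, i ≠ j → i ≠ k → G.nb m i = w)
    (h1 : x (G.nb m j) < x m) (h2 : x m < x (G.nb m k)) (hc : 0 < sg j k * s) :
    ok G x' y' (insert w S) m := by
  left
  have key : ∀ i, i ≠ j → i ≠ k → Rot G x' y' m := by
    intro i hij hik
    rw [Rot_iff G x' y' m i]
    rw [h3 i hij hik]
    rcases third_cases hjk hij hik with ⟨e1, e2, e3⟩ | ⟨e1, e2, e3⟩
    · rw [e1, e2]
      rw [e3, sg_one, one_mul] at hc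
      have c1 : cr x' y' m w (G.nb m j) = cr x' y' (G.nb m j) m w := by unfold cr; ring
      rw [c1]
      refine Or.inr (Or.inr ⟨?_, ?_⟩)
      · exact h.sign hm hk (mul_pos hc (by linarith)) hs
      · exact h.sign hj hm (mul_pos hc (by linarith)) hs
    · rw [e1, e2]
      rw [e3, sg_two] at hc
      have c1 : cr x' y' m w (G.nb m k) = cr x' y' (G.nb m k) m w := by unfold cr; ring
      rw [c1]
      refine Or.inr (Or.inr ⟨?_, ?_⟩)
      · exact h.sign hm hj (mul_pos_of_neg_of_neg (by linarith) (by linarith)) hs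
      · exact h.sign hk hm (mul_pos_of_neg_of_neg (by linarith) (by linarith)) hs
  obtain ⟨i, hij, hik⟩ := exists_third j k
  refine ⟨fun l => ?_, key i hij hik⟩
  by_cases hlj : l = j
  · rw [hlj]; exact Finset.mem_insert_of_mem hj
  by_cases hlk : l = k
  · rw [hlk]; exact Finset.mem_insert_of_mem hk
  · rw [h3 l hlj hlk]; exact Finset.mem_insert_self _ _

/-- the new vertex is safe: two placed neighbours -/
theorem Ext.ok_new2 (h : Ext x y S w ξ s x' y') (hs : s = 1 ∨ s = -1)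
    {j k : Fin 3} (hjk : j ≠ k) (hj : G.nb w j ∈ S) (hk : G.nb w k ∈ S)
    (h3 : ∀ i, i ≠ j → i ≠ k → G.nb w i ∉ S)
    (side : 0 < (x (G.nb w j) - ξ) * (x (G.nb w k) - ξ))
    (hc : 0 < sg j k * s * (x (G.nb w k) - x (G.nb w j))) : ok G x' y' (insert w S) w := by
  refine ok_of hjk (Finset.mem_insert_of_mem hj) (Finset.mem_insert_of_mem hk) ?_ ?_ ?_
  · intro i hij hik hi
    rcases Finset.mem_insert.1 hi with hi | hi
    · exact G.irr w i hi
    · exact h3 i hij hik hi
  · rw [h.ex _ hj, h.ex _ hk, h.xw]; exact side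
  · rw [cr_rot]
    rcases sg_cases j k with e | e <;> rw [e] at hc ⊢
    · rw [one_mul]
      exact h.sign hj hk (by linarith) hs
    · have := h.sign_neg hj hk (by linarith) hs
      linarith

/-- the new vertex is safe: three placed neighbours -/
theorem Ext.ok_new3 (h : Ext x y S w ξ s x' y') (hs : s = 1 ∨ s = -1)
    (i : Fin 3) (hS : ∀ i, G.nb w i ∈ S)
    (hM : Maj (s * (x (G.nb w (i + 1)) - x (G.nb w i)))
      (s * (x (G.nb w (i + 2)) - x (G.nb w (i + 1))))
      (s * (x (G.nb w i) - x (G.nb w (i + 2))))) : ok G x' y' (insert w S) w := by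
  left
  refine ⟨fun l => Finset.mem_insert_of_mem (hS l), ?_⟩
  rw [Rot_iff G x' y' w i]
  have e0 : cr x' y' w (G.nb w i) (G.nb w (i + 1)) = cr x' y' (G.nb w i) (G.nb w (i + 1)) w := by
    unfold cr; ring
  have e1 : cr x' y' w (G.nb w (i + 1)) (G.nb w (i + 2)) =
      cr x' y' (G.nb w (i + 1)) (G.nb w (i + 2)) w := by
    unfold cr; ring
  have e2 : cr x' y' w (G.nb w (i + 2)) (G.nb w i) = cr x' y' (G.nb w (i + 2)) (G.nb w i) w := by
    unfold cr; ring
  rw [e0, e1, e2]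
  rcases hM with ⟨a, b⟩ | ⟨a, b⟩ | ⟨a, b⟩
  · exact Or.inl ⟨h.sign (hS _) (hS _) a hs, h.sign (hS _) (hS _) b hs⟩
  · exact Or.inr (Or.inl ⟨h.sign (hS _) (hS _) a hs, h.sign (hS _) (hS _) b hs⟩)
  · exact Or.inr (Or.inr ⟨h.sign (hS _) (hS _) a hs, h.sign (hS _) (hS _) b hs⟩)

/-- for distinct reals, one of the two cyclic orders holds -/
theorem exists_maj {a b c : ℝ} (hab : a ≠ b) (hbc : b ≠ c) (hac : a ≠ c) :
    ∃ s : ℝ, (s = 1 ∨ s = -1) ∧ Maj (s * (b - a)) (s * (c - b)) (s * (a - c)) := by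
  rcases lt_or_gt_of_ne hab with h1 | h1 <;> rcases lt_or_gt_of_ne hbc with h2 | h2 <;>
    rcases lt_or_gt_of_ne hac with h3 | h3
  · exact ⟨1, Or.inl rfl, Or.inl ⟨by linarith, by linarith⟩⟩
  · exact ⟨1, Or.inl rfl, Or.inl ⟨by linarith, by linarith⟩⟩
  · exact ⟨-1, Or.inr rfl, Or.inr (Or.inl ⟨by linarith, by linarith⟩)⟩
  · exact ⟨1, Or.inl rfl, Or.inr (Or.inr ⟨by linarith, by linarith⟩)⟩
  · exact ⟨-1, Or.inr rfl, Or.inr (Or.inr ⟨by linarith, by linarith⟩)⟩
  · exact ⟨1, Or.inl rfl, Or.inr (Or.inl ⟨by linarith, by linarith⟩)⟩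
  · exact ⟨-1, Or.inr rfl, Or.inl ⟨by linarith, by linarith⟩⟩
  · exact ⟨-1, Or.inr rfl, Or.inl ⟨by linarith, by linarith⟩⟩

end Pool.Agent.Q230.RS
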