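import Pool.Agent.Q230.RS.Reach2

/-!
# Rotation systems of cubic graphs: start with a triangle
-/

set_option autoImplicit false

namespace Pool.Agent.Q230.RS

variable {V : Type*} [DecidableEq V]

/-- all placed vertices but `m` are safe; `m` has two placed neighbours, one on each side -/
def St3 (G : Cub V) (S : Finset V) (m : V) : Prop :=
  ∃ (x y : V → ℝ) (j k : Fin 3), Bs x y S ∧ m ∈ S ∧ j ≠ k ∧ G.nb m j ∈ S ∧ G.nb m k ∈ S ∧
    (∀ i, i ≠ j → i ≠ k → G.nb m i ∉ S) ∧ x (G.nb m j) < x m ∧ x m < x (G.nb m k) ∧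
    ∀ z ∈ S, z ≠ m → ok G x y S z

/-- the third neighbour of `m` has no other placed neighbour -/
theorem st3_fin {G : Cub V} {S : Finset V} {m : V} (h : St3 G S m) {i : Fin 3}
    (hi : G.nb m i ∉ S) (hu : ∀ l, G.nb (G.nb m i) l ∈ S → G.nb (G.nb m i) l = m) :
    ∃ S', S ⊂ S' ∧ Reach G S' := by
  obtain ⟨x, y, j, k, hB, hm, hjk, hj, hk, h3, h1, h2, hok⟩ := h
  have hij : i ≠ j := fun e => hi (e ▸ hj)
  have hik : i ≠ k := fun e => hi (e ▸ hk)
  refine extq hB hm rfl ?_ hi hu hok (sg_cases j k) ?_
  · intro l hl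
    by_cases hlj : l = j
    · rw [hlj]; exact hj
    by_cases hlk : l = k
    · rw [hlk]; exact hk
    · exact absurd (third_unique hjk hij hik hlj hlk) hl
  · intro ξ x' y' hE
    refine hE.ok_forced (sg_cases j k) hm hjk hj hk ?_ h1 h2 (by rw [sg_sq]; norm_num)
    intro l hlj hlk
    rw [third_unique hjk hij hik hlj hlk]

/-- the third neighbour of `m` has exactly one other placed neighbour -/
theorem st3_step {G : Cub V} {S : Finset V} {m : V} (h : St3 G S m) {i : Fin 3}
    (hi : G.nb m i ∉ S) {n r : Fin 3} (hn : G.nb (G.nb m i) n ∈ S) (hnm : G.nb (G.nb m i) n ≠ m)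
    (hr : G.nb (G.nb m i) r ∉ S) : St3 G (insert (G.nb m i) S) (G.nb m i) := by
  obtain ⟨x, y, j, k, hB, hm, hjk, hj, hk, h3, h1, h2, hok⟩ := h
  have hij : i ≠ j := fun e => hi (e ▸ hj)
  have hik : i ≠ k := fun e => hi (e ▸ hk)
  obtain ⟨l, hl⟩ := back (G := G) m i
  have hln : l ≠ n := fun e => hnm (by rw [← e, hl])
  have hrl : r ≠ l := fun e => hr (by rw [e, hl]; exact hm)
  have hrn : r ≠ n := fun e => hr (e ▸ hn)
  have hx := hB.1 _ hn m hm hnm
  have hforced : ∀ ξ x' y', Ext x y S (G.nb m i) ξ (sg j k) x' y' →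
      ok G x' y' (insert (G.nb m i) S) m := by
    intro ξ x' y' hE
    refine hE.ok_forced (sg_cases j k) hm hjk hj hk ?_ h1 h2 (by rw [sg_sq]; norm_num)
    intro l hlj hlk
    rw [third_unique hjk hij hik hlj hlk]
  have hrest : ∀ t, t ≠ l → t ≠ n → G.nb (G.nb m i) t ∉ insert (G.nb m i) S := by
    intro t htl htn ht
    rw [third_unique hln hrl hrn htl htn] at ht
    rcases Finset.mem_insert.1 ht with ht | ht
    · exact G.irr _ _ ht
    · exact hr ht
  have hoks : ∀ ξ x' y', Ext x y S (G.nb m i) ξ (sg j k) x' y' →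
      ∀ z ∈ insert (G.nb m i) S, z ≠ G.nb m i → ok G x' y' (insert (G.nb m i) S) z := by
    intro ξ x' y' hE z hz hzm
    rcases Finset.mem_insert.1 hz with hz | hz
    · exact absurd hz hzm
    · by_cases hzm' : z = m
      · rw [hzm']; exact hforced ξ x' y' hE
      · exact hE.keep (sg_cases j k) hz (hok z hz hzm')
  rcases lt_or_gt_of_ne hx with hlt | hlt
  · obtain ⟨ξ, a1, a2, a3⟩ := exists_between' x S hlt
    obtain ⟨x', y', hE⟩ := exists_ext x y S hB _ hi ξ a3 (sg j k) (sg_cases j k)
    refine ⟨x', y', n, l, hE.base, Finset.mem_insert_self _ _, hln.symm,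
      Finset.mem_insert_of_mem hn, ?_, fun t ht1 ht2 => hrest t ht2 ht1, ?_, ?_,
      hoks ξ x' y' hE⟩
    · rw [hl]; exact Finset.mem_insert_of_mem hm
    · rw [hE.ex _ hn, hE.xw]; exact a1
    · rw [hl, hE.ex _ hm, hE.xw]; exact a2
  · obtain ⟨ξ, a1, a2, a3⟩ := exists_between' x S hlt
    obtain ⟨x', y', hE⟩ := exists_ext x y S hB _ hi ξ a3 (sg j k) (sg_cases j k)
    refine ⟨x', y', l, n, hE.base, Finset.mem_insert_self _ _, hln,
      ?_, Finset.mem_insert_of_mem hn, fun t ht1 ht2 => hrest t ht1 ht2, ?_, ?_,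
      hoks ξ x' y' hE⟩
    · rw [hl]; exact Finset.mem_insert_of_mem hm
    · rw [hl, hE.ex _ hm, hE.xw]; exact a1
    · rw [hE.ex _ hn, hE.xw]; exact a2

/-- the placed vertices with unplaced neighbours -/
def outS (G : Cub V) (S : Finset V) : Finset V := S.filter (fun z => ∃ i, G.nb z i ∉ S)

/-- a placed vertex of the state has at most one unplaced neighbour -/
theorem one_out {G : Cub V} {S : Finset V} {m : V} (h : St3 G S m) {z : V} (hz : z ∈ S)
    {i i' : Fin 3} (hi : G.nb z i ∉ S) (hi' : G.nb z i' ∉ S) : i = i' := by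
  obtain ⟨x, y, j, k, hB, hm, hjk, hj, hk, h3, h1, h2, hok⟩ := h
  by_cases hzm : z = m
  · subst hzm
    exact third_unique hjk (fun e => hi' (e ▸ hj)) (fun e => hi' (e ▸ hk))
      (fun e => hi (e ▸ hj)) (fun e => hi (e ▸ hk))
  · rcases hok z hz hzm with ⟨hf, _⟩ | ⟨t, h0, h1, h2, _, _⟩
    · exact absurd (hf i) hi
    · have e1 : i = t := by
        by_contra hne
        rcases fin3_cases (fun e => hne e.symm : t ≠ i) with e | e
        · exact hi (e ▸ h1)
        · exact hi (e ▸ h2)
      have e2 : i' = t := by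
        by_contra hne
        rcases fin3_cases (fun e => hne e.symm : t ≠ i') with e | e
        · exact hi' (e ▸ h1)
        · exact hi' (e ▸ h2)
      rw [e1, e2]

theorem outS_step {G : Cub V} {S : Finset V} {m : V} (h : St3 G S m) {i : Fin 3}
    (hi : G.nb m i ∉ S) {n : Fin 3} (hn : G.nb (G.nb m i) n ∈ S)
    (hnm : G.nb (G.nb m i) n ≠ m) :
    (outS G (insert (G.nb m i) S)).card + 1 ≤ (outS G S).card := by
  have hm : m ∈ S := by obtain ⟨x, y, j, k, hB, hm, _⟩ := h; exact hm
  obtain ⟨l, hl⟩ := back (G := G) m i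
  have hmo : m ∈ outS G S := Finset.mem_filter.2 ⟨hm, i, hi⟩
  have hno : G.nb (G.nb m i) n ∈ outS G S := by
    obtain ⟨t, ht⟩ := back (G := G) (G.nb m i) n
    exact Finset.mem_filter.2 ⟨hn, t, by rw [ht]; exact hi⟩
  have hsub : outS G (insert (G.nb m i) S) ⊆
      insert (G.nb m i) (((outS G S).erase m).erase (G.nb (G.nb m i) n)) := by
    intro z hz
    obtain ⟨hz1, t, ht⟩ := Finset.mem_filter.1 hz
    rcases Finset.mem_insert.1 hz1 with hz1 | hz1
    · rw [hz1]; exact Finset.mem_insert_self _ _
    · refine Finset.mem_insert_of_mem ?_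
      have htS : G.nb z t ∉ S := fun hh => ht (Finset.mem_insert_of_mem hh)
      refine Finset.mem_erase.2 ⟨?_, Finset.mem_erase.2 ⟨?_, Finset.mem_filter.2 ⟨hz1, t, htS⟩⟩⟩
      · intro e
        obtain ⟨t', ht'⟩ := back (G := G) (G.nb m i) n
        rw [← e] at ht'
        have : t = t' := one_out h hz1 htS (by rw [ht']; exact hi)
        rw [this, ht'] at ht
        exact ht (Finset.mem_insert_self _ _)
      · intro e
        rw [e] at ht htS
        have : t = i := one_out h hm htS hi
        rw [this] at ht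
        exact ht (Finset.mem_insert_self _ _)
  have hc := Finset.card_le_card hsub
  have hc2 := Finset.card_insert_le (G.nb m i) (((outS G S).erase m).erase (G.nb (G.nb m i) n))
  have hne : G.nb (G.nb m i) n ∈ (outS G S).erase m := Finset.mem_erase.2 ⟨hnm, hno⟩
  rw [Finset.card_erase_of_mem hne, Finset.card_erase_of_mem hmo] at hc2
  have h2 : 2 ≤ (outS G S).card := by
    have := Finset.card_pos.2 ⟨_, hne⟩
    rw [Finset.card_erase_of_mem hmo] at this
    omega
  omega

/-- few vertices with unplaced neighbours -/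
theorem st3_few {G : Cub V} : ∀ (N : ℕ) (S : Finset V) (m : V), St3 G S m →
    (∃ i, G.nb m i ∉ S) → (outS G S).card ≤ N → N ≤ 2 → ∃ S', S ⊂ S' ∧ Reach G S' := by
  intro N
  induction N with
  | zero =>
    intro S m h hi hc _
    obtain ⟨i, hi⟩ := hi
    have hm : m ∈ S := by obtain ⟨x, y, j, k, hB, hm, _⟩ := h; exact hm
    have : m ∈ outS G S := Finset.mem_filter.2 ⟨hm, i, hi⟩
    have := Finset.card_pos.2 ⟨_, this⟩
    omega
  | succ N ih =>
    intro S m h hi hc hN
    obtain ⟨i, hi⟩ := hi
    have hm : m ∈ S := by obtain ⟨x, y, j, k, hB, hm, _⟩ := h; exact hm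
    by_cases hu : ∀ l, G.nb (G.nb m i) l ∈ S → G.nb (G.nb m i) l = m
    · exact st3_fin h hi hu
    · push Not at hu
      obtain ⟨n, hn, hnm⟩ := hu
      have hr : ∃ r, G.nb (G.nb m i) r ∉ S := by
        by_contra hcon
        push Not at hcon
        -- three placed neighbours, all of them with an unplaced neighbour
        have hsub : Finset.univ.image (fun t => G.nb (G.nb m i) t) ⊆ outS G S := by
          intro z hz
          obtain ⟨t, _, rfl⟩ := Finset.mem_image.1 hz
          obtain ⟨t', ht'⟩ := back (G := G) (G.nb m i) t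
          exact Finset.mem_filter.2 ⟨hcon t, t', by rw [ht']; exact hi⟩
        have hcard := Finset.card_le_card hsub
        rw [Finset.card_image_of_injective _ (G.inj _)] at hcard
        simp at hcard
        omega
      obtain ⟨r, hr⟩ := hr
      have h' := st3_step h hi hn hnm hr
      have hcard := outS_step h hi hn hnm
      obtain ⟨S', h1, h2⟩ := ih _ _ h' ⟨r, by
        intro hh
        rcases Finset.mem_insert.1 hh with hh | hh
        · exact G.irr _ _ hh
        · exact hr hh⟩ (by omega) (by omega)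
      exact ⟨S', (Finset.ssubset_insert hi).trans h1, h2⟩

/-- no component is a `K₄` (in a connected graph: the graph is not `K₄`) -/
def NoK4 (G : Cub V) : Prop := ∀ v, ∃ i j, G.nb (G.nb v i) j ≠ v ∧ ∀ k, G.nb (G.nb v i) j ≠ G.nb v k

theorem tri_start {G : Cub V} {a b c : V} {iab iac ibc iba ica icb : Fin 3}
    (hab : G.nb a iab = b) (hac : G.nb a iac = c) (hbc : G.nb b ibc = c) (hba : G.nb b iba = a)
    (hca : G.nb c ica = a) (hcb : G.nb c icb = b) (hτ : sg ibc iba = sg ica icb) :
    St3 G {a, b, c} a := by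
  have nab : a ≠ b := fun e => G.irr a iab (hab.trans e.symm)
  have nac : a ≠ c := fun e => G.irr a iac (hac.trans e.symm)
  have nbc : b ≠ c := fun e => G.irr b ibc (hbc.trans e.symm)
  have i1 : iab ≠ iac := fun e => nbc (by rw [← hab, ← hac, e])
  have i2 : ibc ≠ iba := fun e => nac (by rw [← hbc, ← hba, e])
  have i3 : ica ≠ icb := fun e => nab (by rw [← hca, ← hcb, e])
  set τ := sg ibc iba with hτd
  have hτ2 : τ * τ = 1 := sg_sq _ _
  have hτ0 : τ ≠ 0 := fun e => by rw [e] at hτ2; norm_num at hτ2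
  -- the placement
  let x : V → ℝ := fun v => if v = b then -1 else if v = c then 1 else 0
  let y : V → ℝ := fun v => if v = a then τ else 0
  have xa : x a = 0 := by simp [x, nab, nac]
  have xb : x b = -1 := by simp [x]
  have xc : x c = 1 := by simp [x, nbc.symm]
  have ya : y a = τ := by simp [y]
  have yb : y b = 0 := by simp [y, nab.symm]
  have yc : y c = 0 := by simp [y, nac.symm]
  have mem : ∀ z, z ∈ ({a, b, c} : Finset V) ↔ z = a ∨ z = b ∨ z = c := by
    intro z; simp
  refine ⟨x, y, iab, iac, ⟨?_, ?_⟩, ?_, i1, ?_, ?_, ?_, ?_, ?_, ?_⟩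
  · intro p hp q hq hpq
    rcases (mem p).1 hp with rfl | rfl | rfl <;> rcases (mem q).1 hq with rfl | rfl | rfl <;>
      first
      | exact absurd rfl hpq
      | (simp only [xa, xb, xc]; norm_num)
  · intro p hp q hq r hr h1 h2 h3
    rcases (mem p).1 hp with rfl | rfl | rfl <;> rcases (mem q).1 hq with rfl | rfl | rfl <;>
      rcases (mem r).1 hr with rfl | rfl | rfl <;>
      first
      | exact absurd rfl h1
      | exact absurd rfl h2
      | exact absurd rfl h3
      | (unfold cr; simp only [xa, xb, xc, ya, yb, yc]; intro h0; apply hτ0; linarith)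
  · simp
  · rw [hab]; simp
  · rw [hac]; simp
  · intro i h1 h2 h3
    rcases (mem _).1 h3 with h | h | h
    · exact G.irr _ _ h
    · exact h1 (G.inj a (h.trans hab.symm))
    · exact h2 (G.inj a (h.trans hac.symm))
  · rw [hab, xa, xb]; norm_num
  · rw [hac, xa, xc]; norm_num
  · intro z hz hza
    rcases (mem z).1 hz with h | h | h
    · exact absurd h hza
    · rw [h]
      refine ok_of i2 ?_ ?_ ?_ ?_ ?_
      · rw [hbc]; simp
      · rw [hba]; simp
      · intro i h1 h2 h3
        rcases (mem _).1 h3 with h | h | h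
        · exact h2 (G.inj b (h.trans hba.symm))
        · exact G.irr _ _ h
        · exact h1 (G.inj b (h.trans hbc.symm))
      · rw [hbc, hba, xa, xb, xc]; norm_num
      · rw [hbc, hba, ← hτd]
        unfold cr
        rw [xa, xb, xc, ya, yb, yc]
        nlinarith
    · rw [h]
      refine ok_of i3 ?_ ?_ ?_ ?_ ?_
      · rw [hca]; simp
      · rw [hcb]; simp
      · intro i h1 h2 h3
        rcases (mem _).1 h3 with h | h | h
        · exact h1 (G.inj c (h.trans hca.symm))
        · exact h2 (G.inj c (h.trans hcb.symm))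
        · exact G.irr _ _ h
      · rw [hca, hcb, xa, xb, xc]; norm_num
      · rw [hca, hcb, ← hτ]
        unfold cr
        rw [xa, xb, xc, ya, yb, yc]
        nlinarith

/-- **Start with a triangle.** -/
theorem start_tri {G : Cub V} (hK : NoK4 G) {a b c : V} (hab : ∃ i, G.nb a i = b)
    (hbc : ∃ i, G.nb b i = c) (hca : ∃ i, G.nb c i = a) :
    ∃ S' : Finset V, S'.Nonempty ∧ Reach G S' := by
  obtain ⟨iab, hab⟩ := hab
  obtain ⟨ibc, hbc⟩ := hbc
  obtain ⟨ica, hca⟩ := hca
  obtain ⟨iba, hba⟩ : ∃ i, G.nb b i = a := by rw [← hab]; exact G.sym a iab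
  obtain ⟨icb, hcb⟩ : ∃ i, G.nb c i = b := by rw [← hbc]; exact G.sym b ibc
  obtain ⟨iac, hac⟩ : ∃ i, G.nb a i = c := by rw [← hca]; exact G.sym c ica
  have nab : a ≠ b := fun e => G.irr a iab (hab.trans e.symm)
  have nac : a ≠ c := fun e => G.irr a iac (hac.trans e.symm)
  have nbc : b ≠ c := fun e => G.irr b ibc (hbc.trans e.symm)
  obtain ⟨m, hm⟩ : ∃ m, St3 G {a, b, c} m := by
    by_cases h1 : sg ibc iba = sg ica icb
    · exact ⟨a, tri_start hab hac hbc hba hca hcb h1⟩
    by_cases h2 : sg ica icb = sg iab iac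
    · refine ⟨b, ?_⟩
      have := tri_start hbc hba hca hcb hab hac h2
      have e : ({b, c, a} : Finset V) = {a, b, c} := by ext z; simp; tauto
      rwa [e] at this
    by_cases h3 : sg iab iac = sg ibc iba
    · refine ⟨c, ?_⟩
      have := tri_start hca hcb hab hac hbc hba h3
      have e : ({c, a, b} : Finset V) = {a, b, c} := by ext z; simp; tauto
      rwa [e] at this
    · exfalso
      rcases sg_cases iab iac with e1 | e1 <;> rcases sg_cases ibc iba with e2 | e2 <;>
        rcases sg_cases ica icb with e3 | e3 <;> rw [e1, e2] at h3 <;> rw [e2, e3] at h1 <;>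
        rw [e3, e1] at h2 <;> first | exact h1 rfl | exact h2 rfl | exact h3 rfl
  set T : Finset V := {a, b, c} with hT
  have hTc : (outS G T).card ≤ 3 := by
    refine (Finset.card_le_card (Finset.filter_subset _ _)).trans ?_
    exact Finset.card_le_three
  obtain ⟨S', h1, h2⟩ : ∃ S', T ⊂ S' ∧ Reach G S' := by
    have hm' := hm
    obtain ⟨x, y, j, k, hB, hmT, hjk, hj, hk, h3, _, _, hok⟩ := hm'
    obtain ⟨i, hij, hik⟩ := exists_third j k
    have hi := h3 i hij hik
    by_cases hu : ∀ l, G.nb (G.nb m i) l ∈ T → G.nb (G.nb m i) l = m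
    · exact st3_fin hm hi hu
    · push Not at hu
      obtain ⟨n, hn, hnm⟩ := hu
      have hr : ∃ r, G.nb (G.nb m i) r ∉ T := by
        by_contra hcon
        push Not at hcon
        -- all neighbours of `c'` are in the triangle: `K₄`
        obtain ⟨p, q, h1, h2⟩ := hK (G.nb m i)
        have himg : Finset.univ.image (fun t => G.nb (G.nb m i) t) = T := by
          refine Finset.eq_of_subset_of_card_le ?_ ?_
          · intro z hz
            obtain ⟨t, _, rfl⟩ := Finset.mem_image.1 hz
            exact hcon t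
          · rw [Finset.card_image_of_injective _ (G.inj _)]
            have : T.card ≤ 3 := Finset.card_le_three
            simpa using this
        -- the neighbours of a vertex of the triangle are in `T` or equal to `c'`
        have hT2 : ∀ z ∈ T, ∀ t, G.nb z t ∈ T ∨ G.nb z t = G.nb m i := by
          intro z hz t
          by_contra hcon2
          push Not at hcon2
          have hz' : ∃ t', G.nb z t' = G.nb m i := by
            rw [← himg] at hz
            obtain ⟨t', _, rfl⟩ := Finset.mem_image.1 hz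
            exact G.sym _ _
          obtain ⟨t', ht'⟩ := hz'
          have := one_out hm hz hcon2.1 (i' := t') (by rw [ht']; exact hi)
          rw [this, ht'] at hcon2
          exact hcon2.2 rfl
        rcases hT2 _ (hcon p) q with h | h
        · rw [← himg] at h
          obtain ⟨t, _, ht⟩ := Finset.mem_image.1 h
          exact h2 t ht.symm
        · exact h1 h
      obtain ⟨r, hr⟩ := hr
      have h' := st3_step hm hi hn hnm hr
      have hcard := outS_step hm hi hn hnm
      obtain ⟨S', h1, h2⟩ := st3_few 2 _ _ h' ⟨r, by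
        intro hh
        rcases Finset.mem_insert.1 hh with hh | hh
        · exact G.irr _ _ hh
        · exact hr hh⟩ (by omega) (by omega)
      exact ⟨S', (Finset.ssubset_insert hi).trans h1, h2⟩
  exact ⟨S', Finset.Nonempty.mono h1.1 ⟨a, by simp [hT]⟩, h2⟩

end Pool.Agent.Q230.RS
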